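import Pool.Agent.Helper42.KU.Dim

/-!
# Project KU: the transfer inequality
-/

set_option autoImplicit false

namespace Pool.Agent.Helper42.KU

open Complex Metric Pool.Agent.Helper42.LB Pool.Agent.Helper42.KN

variable {p : ℝ}

variable {w w' : ℂ}

/-- `|1 + w|^2 = 1 + |w|^2 + 2 Re w` -/
theorem NN_eq (h : w ≠ 0) : NN w = 2 * XX w + 2 * (w.re / ‖w‖) := by
  have h1 : ‖w‖ ≠ 0 := norm_ne_zero_iff.2 h
  have h2 : ‖1 + w‖ ^ 2 = 1 + ‖w‖ ^ 2 + 2 * w.re := by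
    rw [← normSq_eq_norm_sq, ← normSq_eq_norm_sq, normSq_apply, normSq_apply, add_re, add_im,
      one_re, one_im]
    ring
  unfold NN XX
  rw [h2]
  field_simp
  ring

theorem NN_neg (h : w ≠ 0) : NN (-w) = 2 * XX w - 2 * (w.re / ‖w‖) := by
  rw [NN_eq (neg_ne_zero.2 h)]
  unfold XX
  rw [norm_neg, neg_re]
  ring

theorem NN_I (h : w ≠ 0) : NN (I * w) = 2 * XX w - 2 * (w.im / ‖w‖) := by
  rw [NN_eq (mul_ne_zero I_ne_zero h)]
  unfold XX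
  rw [norm_mul, norm_I, one_mul, I_mul_re]
  ring

theorem NN_negI (h : w ≠ 0) : NN (-(I * w)) = 2 * XX w + 2 * (w.im / ‖w‖) := by
  rw [NN_neg (mul_ne_zero I_ne_zero h)]
  unfold XX
  rw [norm_mul, norm_I, one_mul, I_mul_re]
  ring

theorem re_im_sq (h : w ≠ 0) : (w.re / ‖w‖) ^ 2 + (w.im / ‖w‖) ^ 2 = 1 := by
  have h1 : ‖w‖ ≠ 0 := norm_ne_zero_iff.2 h
  have h2 : ‖w‖ ^ 2 = w.re ^ 2 + w.im ^ 2 := by
    rw [← normSq_eq_norm_sq, normSq_apply]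
    ring
  rw [div_pow, div_pow, ← add_div, ← h2]
  exact div_self (pow_ne_zero 2 h1)

theorem XX_ge (h : w ≠ 0) : 1 ≤ XX w := by
  have h1 : 0 < ‖w‖ := norm_pos_iff.2 h
  have h2 : ‖w‖ * (1 / ‖w‖) = 1 := mul_one_div_cancel h1.ne'
  have h3 : 0 < 1 / ‖w‖ := by positivity
  unfold XX
  nlinarith [sq_nonneg (‖w‖ - 1 / ‖w‖)]

theorem NN_pos (hw : w ∈ ball (0 : ℂ) 1) (h : w ≠ 0) : 0 < NN w := by
  have h1 : 0 < ‖w‖ := norm_pos_iff.2 h
  have h2 : 1 + w ≠ 0 := by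
    intro h3
    have h4 : w = -1 := by linear_combination h3
    rw [mem_ball_zero_iff, h4, norm_neg, norm_one] at hw
    exact lt_irrefl _ hw
  have h3 : 0 < ‖1 + w‖ := norm_pos_iff.2 h2
  unfold NN
  positivity

theorem NN_le (h : w ≠ 0) : NN w ≤ 4 * XX w := by
  rw [NN_eq h]
  have h1 := XX_ge h
  have h2 := re_im_sq h
  have h3 : w.re / ‖w‖ ≤ 1 := by
    nlinarith [sq_nonneg (w.im / ‖w‖), sq_nonneg (w.re / ‖w‖ - 1)]
  linarith

/-- `(1 + I w)(1 - I w) = 1 + w^2` -/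
theorem one_add_sq (h : w ≠ 0) : ‖1 + w ^ 2‖ ^ 2 = ‖w‖ ^ 2 * (NN (I * w) * NN (-(I * w))) := by
  have h0 : ‖w‖ ≠ 0 := norm_ne_zero_iff.2 h
  have h1 : 1 + w ^ 2 = (1 + I * w) * (1 + -(I * w)) := by
    linear_combination (w ^ 2) * I_sq
  have h2 : ‖I * w‖ = ‖w‖ := by rw [norm_mul, norm_I, one_mul]
  unfold NN
  rw [norm_neg, h2, h1, norm_mul]
  field_simp

/-- from `Phi_rel`: `2 Phi (1 + w^2) = w (1 + Phi)^2`; subtract `4 w Phi` -/
theorem Phi_kb (hw : w ∈ ball (0 : ℂ) 1) : 2 * Phi w * (1 - w) ^ 2 = w * (1 - Phi w) ^ 2 := by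
  have h1 := VV_add_ne hw
  have h2 := VV_sub_mul hw
  have h3 := one_sub_ne hw
  have h4 : (VV w - 1) * (VV w + 1) * (1 - w) ^ 2 = 2 * w := by
    rw [h2]
    field_simp
  unfold Phi
  have h5 : 1 - (VV w - 1) / (VV w + 1) = 2 / (VV w + 1) := by
    field_simp
    ring
  rw [h5]
  field_simp
  linear_combination h4

/-- `NN (-w') = |1 - w'|^2 / |w'| = |1 - Phi w'|^2 / (2 |Phi w'|)` (`Phi_kb`) and
`1 - w^4 = (1 - w)(1 + w)(1 - I w)(1 + I w)`. -/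
theorem NN_prod (hw' : w' ∈ ball (0 : ℂ) 1) (h' : w' ≠ 0) (hw : w ∈ ball (0 : ℂ) 1) (h : w ≠ 0)
    (hP : w ^ 4 = Phi w') :
    2 * NN (-w') = NN w * NN (-w) * (NN (I * w) * NN (-(I * w))) := by
  have h0 : ‖w‖ ≠ 0 := norm_ne_zero_iff.2 h
  have h0' : ‖w'‖ ≠ 0 := norm_ne_zero_iff.2 h'
  have h1 := congrArg norm (Phi_kb hw')
  rw [← hP, norm_mul, norm_mul, norm_mul, norm_pow, norm_pow, norm_pow, Complex.norm_ofNat] at h1
  have h2 : 1 - w ^ 4 = (1 + w) * (1 + -w) * ((1 + I * w) * (1 + -(I * w))) := by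
    linear_combination (w ^ 2 * (1 - w ^ 2)) * I_sq
  have h3 : ‖I * w‖ = ‖w‖ := by rw [norm_mul, norm_I, one_mul]
  rw [h2, norm_mul, norm_mul, norm_mul] at h1
  unfold NN
  rw [norm_neg, norm_neg, norm_neg, h3, ← sub_eq_add_neg 1 w']
  rw [mul_div_assoc', div_mul_div_comm, div_mul_div_comm, div_mul_div_comm,
    div_eq_div_iff h0' (by positivity)]
  linear_combination h1

private theorem exp_p_LL_mul_I (hw : w ∈ ball (0 : ℂ) 1) : I * w ∈ ball (0 : ℂ) 1 := by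
  rw [mem_ball_zero_iff] at hw ⊢
  rw [norm_mul, norm_I, one_mul]
  exact hw

private theorem exp_p_LL_neg (hw : w ∈ ball (0 : ℂ) 1) : -w ∈ ball (0 : ℂ) 1 := by
  rw [mem_ball_zero_iff] at hw ⊢
  rw [norm_neg]
  exact hw

private theorem exp_p_LL_M (hw : w ∈ ball (0 : ℂ) 1) (h : w ≠ 0) :
    0 < NN (I * w) * NN (-(I * w)) :=
  mul_pos (NN_pos (exp_p_LL_mul_I hw) (mul_ne_zero I_ne_zero h))
    (NN_pos (exp_p_LL_neg (exp_p_LL_mul_I hw)) (neg_ne_zero.2 (mul_ne_zero I_ne_zero h)))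

private theorem exp_p_LL_two (hw : w ∈ ball (0 : ℂ) 1) (h : w ≠ 0) :
    Real.exp (2 * (LL w).re) = NN w * (NN (I * w) * NN (-(I * w))) ^ (-(1 / 2) : ℝ) := by
  have hM := exp_p_LL_M hw h
  have h0 : 0 < ‖w‖ := norm_pos_iff.2 h
  have h1 : (1 + w ^ 2 : ℂ) ≠ 0 := by
    intro h2
    have h3 : w ^ 2 = -1 := by linear_combination h2
    have h4 : ‖w‖ ^ 2 = 1 := by rw [← norm_pow, h3, norm_neg, norm_one]
    have h5 : ‖w‖ < 1 := mem_ball_zero_iff.1 hw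
    nlinarith
  have h2 : exp (2 * LL w) = (1 + w) ^ 2 / (1 + w ^ 2) := by
    rw [exp_two_LL hw]
    field_simp
    ring
  have h3 : Real.exp (2 * (LL w).re) = ‖1 + w‖ ^ 2 / ‖1 + w ^ 2‖ := by
    have h4 := congrArg (fun z : ℂ => ‖z‖) h2
    simp only [norm_exp, norm_div, norm_pow] at h4
    rw [← h4]
    congr 1
    simp
  have h4 : ‖1 + w ^ 2‖ = ‖w‖ * Real.sqrt (NN (I * w) * NN (-(I * w))) := by
    have h5 := one_add_sq h
    rw [← Real.sqrt_sq (norm_nonneg (1 + w ^ 2)), h5, Real.sqrt_mul (sq_nonneg _),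
      Real.sqrt_sq h0.le]
  rw [h3, h4, Real.rpow_neg hM.le, ← Real.sqrt_eq_rpow]
  unfold NN
  field_simp

/-- `exp (2 Re LL w) = NN w / (NN (I w) NN (-I w))^(1/2)`; power `p / 2` -/
theorem exp_p_LL (p : ℝ) (hw : w ∈ ball (0 : ℂ) 1) (h : w ≠ 0) :
    Real.exp (p * (LL w).re) = NN w ^ (p / 2) *
      (NN (I * w) * NN (-(I * w))) ^ (-(p / 4)) := by
  have hM := exp_p_LL_M hw h
  have hN := NN_pos hw h
  have h1 : p * (LL w).re = 2 * (LL w).re * (p / 2) := by ring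
  rw [h1, Real.exp_mul, exp_p_LL_two hw h, Real.mul_rpow hN.le (Real.rpow_nonneg hM.le _),
    ← Real.rpow_mul hM.le]
  congr 2
  ring

theorem kk_eq (p : ℝ) : (2⁻¹ : ℝ) ^ (p / 4) = kk p := by
  rw [Real.inv_rpow (by norm_num), ← Real.rpow_neg (by norm_num),
    Real.rpow_def_of_pos (by norm_num)]
  unfold kk sg
  congr 1
  ring

theorem kk_pos (p : ℝ) : 0 < kk p := Real.exp_pos _

theorem b1_pos (p : ℝ) : 0 < b1 p := by
  unfold b1
  positivity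

theorem b1_le (hp : 0 < p) : b1 p ≤ 1 := by
  unfold b1
  have h1 := sg_pos hp
  have h2 : Real.exp (-(5328 * sg p)) ≤ 1 := Real.exp_le_one_iff.2 (by linarith)
  linarith

theorem b2_nonneg (hp : 0 < p) (hp1 : p ≤ 3424 / 10000) : 0 ≤ b2 p := by
  unfold b2
  have h1 := sg_pos hp
  have h2 := sg_lt hp1
  have h3 : 0 ≤ 1 - 2640 * sg p := by linarith
  have h4 : 0 < EE p := Real.exp_pos _
  positivity

theorem b2_le (hp : 0 < p) (hp1 : p ≤ 3424 / 10000) : b2 p ≤ 1 := by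
  unfold b2
  have h1 := sg_pos hp
  have h2 := sg_lt hp1
  have h3 : 0 ≤ 1 - 2640 * sg p := by linarith
  have h4 : 1 ≤ EE p := by
    unfold EE
    exact Real.one_le_exp (by positivity)
  rw [div_le_one (by linarith)]
  refine le_trans ?_ h4
  have h5 : 1 - 2640 * sg p ≤ 1 := by linarith
  have h6 : 432000 * sg p ^ 2 ≤ 1 := by nlinarith
  calc 432000 * sg p ^ 2 * (1 - 2640 * sg p) ≤ 1 * 1 := mul_le_mul h6 h5 h3 (by norm_num)
    _ = 1 := by norm_num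

theorem transfer_term (p : ℝ) (hw' : w' ∈ ball (0 : ℂ) 1) (h' : w' ≠ 0) (hw : w ∈ ball (0 : ℂ) 1)
    (h : w ≠ 0) (hP : w ^ 4 = Phi w') :
    Real.exp (p * (LL w).re) * hh p w * NN (-w') ^ (p / 4) =
      kk p * (NN w ^ (3 * p / 4) * (1 + b1 p * NN (-w) ^ (3 * p / 4) + b2 p * JJ w)) := by
  have hM := exp_p_LL_M hw h
  have hN := NN_pos hw h
  have hN2 : 0 < NN (-w) := NN_pos (exp_p_LL_neg hw) (neg_ne_zero.2 h)
  have h1 : NN (-w') = 2⁻¹ * (NN w * NN (-w) * (NN (I * w) * NN (-(I * w)))) := by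
    rw [← NN_prod hw' h' hw h hP, ← mul_assoc]
    norm_num
  rw [exp_p_LL p hw h, h1]
  unfold hh
  generalize NN (I * w) * NN (-(I * w)) = M at *
  generalize NN (-w) = N2 at *
  generalize NN w = N0 at *
  rw [Real.mul_rpow (by norm_num) (by positivity), Real.mul_rpow (by positivity) hM.le,
    Real.mul_rpow hN.le hN2.le]
  have e1 : N0 ^ (3 * p / 4) = N0 ^ (p / 2) * N0 ^ (p / 4) := by
    rw [← Real.rpow_add hN]
    congr 1
    ring
  have e2 : M ^ (-(p / 4)) * M ^ (p / 4) = 1 := by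
    rw [← Real.rpow_add hM, neg_add_cancel, Real.rpow_zero]
  have e3 : N2 ^ (-(p / 4)) * N2 ^ (p / 4) = 1 := by
    rw [← Real.rpow_add hN2, neg_add_cancel, Real.rpow_zero]
  rw [e1, kk_eq]
  generalize 1 + b1 p * N2 ^ (3 * p / 4) + b2 p * JJ w = H
  calc N0 ^ (p / 2) * M ^ (-(p / 4)) * (N2 ^ (-(p / 4)) * H) *
        (kk p * (N0 ^ (p / 4) * N2 ^ (p / 4) * M ^ (p / 4)))
      = (M ^ (-(p / 4)) * M ^ (p / 4)) * (N2 ^ (-(p / 4)) * N2 ^ (p / 4)) *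
        (kk p * (N0 ^ (p / 2) * N0 ^ (p / 4) * H)) := by
        ring
    _ = kk p * (N0 ^ (p / 2) * N0 ^ (p / 4) * H) := by
        rw [e2, e3, one_mul, one_mul]

/-! ## `|w + 1/w|` -/

theorem JJ_sq (h : w ≠ 0) : JJ w ^ 2 = NN (I * w) * NN (-(I * w)) := by
  have h0 : ‖w‖ ≠ 0 := norm_ne_zero_iff.2 h
  have h1 := one_add_sq h
  have h2 : JJ w = ‖1 + w ^ 2‖ / ‖w‖ := by
    unfold JJ
    rw [← norm_div]
    congr 1
    field_simp
    ring
  rw [h2, div_pow, h1]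
  field_simp

theorem JJ_nonneg (w : ℂ) : 0 ≤ JJ w := norm_nonneg _

theorem JJ_neg (w : ℂ) : JJ (-w) = JJ w := by
  unfold JJ
  rw [inv_neg, ← neg_add, norm_neg]

theorem JJ_I (h : w ≠ 0) : JJ (I * w) ^ 2 = NN w * NN (-w) := by
  rw [JJ_sq (mul_ne_zero I_ne_zero h)]
  have h1 : I * (I * w) = -w := by rw [← mul_assoc, I_mul_I, neg_one_mul]
  rw [h1, neg_neg, mul_comm]

/-- `2 (w' + 1/w') = (w^2 + w^(-2))^2` -/
theorem J_rel (hw' : w' ∈ ball (0 : ℂ) 1) (h' : w' ≠ 0) (h : w ≠ 0)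
    (hP : w ^ 4 = Phi w') : ((w + w⁻¹) ^ 2 - 2) ^ 2 = 2 * (w' + w'⁻¹) := by
  have hu : (w ^ 2 : ℂ) ≠ 0 := pow_ne_zero 2 h
  have h1 : (w ^ 2 + (w ^ 2)⁻¹) ^ 2 = 2 * (w' + w'⁻¹) := by
    have h2 := Phi_kb hw'
    rw [← hP] at h2
    field_simp
    linear_combination (-1 : ℂ) * h2
  rw [← h1]
  congr 1
  field_simp
  ring

theorem JJ_eq (hw' : w' ∈ ball (0 : ℂ) 1) (h' : w' ≠ 0) (h : w ≠ 0) (hP : w ^ 4 = Phi w') :
    JJ w' = ((JJ (I * w) ^ 2) ^ 2 + (JJ w ^ 2) ^ 2) / 4 - 2 := by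
  have h1 := congrArg norm (J_rel hw' h' h hP)
  rw [norm_pow, norm_mul, Complex.norm_ofNat] at h1
  have h2 : JJ (I * w) = ‖w - w⁻¹‖ := by
    unfold JJ
    have e : I * w + (I * w)⁻¹ = I * (w - w⁻¹) := by
      rw [mul_inv, Complex.inv_I]
      ring
    rw [e, norm_mul, norm_I, one_mul]
  have h3 := parallelogram_law_with_norm ℝ ((w + w⁻¹) ^ 2 - 2) (2 : ℂ)
  have e1 : (w + w⁻¹) ^ 2 - 2 + 2 = (w + w⁻¹) ^ 2 := by ring
  have e2 : (w + w⁻¹) ^ 2 - 2 - 2 = (w - w⁻¹) ^ 2 := by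
    field_simp
    ring
  rw [e1, e2, norm_pow, norm_pow, Complex.norm_ofNat] at h3
  rw [h2]
  unfold JJ
  linarith

theorem NN_le_JJ (h : w ≠ 0) : NN (-w) ≤ JJ w + 2 := by
  have h0 : ‖w‖ ≠ 0 := norm_ne_zero_iff.2 h
  have h1 : NN (-w) = ‖w + w⁻¹ - 2‖ := by
    unfold NN
    rw [norm_neg, ← norm_pow, ← norm_div]
    congr 1
    field_simp
    ring
  rw [h1]
  refine (norm_sub_le _ _).trans ?_
  rw [Complex.norm_ofNat]
  exact le_rfl

/-- `|J w|^2 ≤ 2 + (2 |J w'|)^(1/2)` -/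
theorem JJ_contr (hw' : w' ∈ ball (0 : ℂ) 1) (h' : w' ≠ 0) (h : w ≠ 0) (hP : w ^ 4 = Phi w') :
    JJ w ≤ 2 + 1 / 8 * max 0 (JJ w' - 2) := by
  have h1 := congrArg norm (J_rel hw' h' h hP)
  rw [norm_pow, norm_mul, Complex.norm_ofNat] at h1
  have h2 : JJ w ^ 2 - 2 ≤ ‖(w + w⁻¹) ^ 2 - 2‖ := by
    have h3 := norm_sub_norm_le ((w + w⁻¹) ^ 2) 2
    rw [norm_pow, Complex.norm_ofNat] at h3
    exact h3
  have h3 := le_max_left 0 (JJ w' - 2)
  have h4 := le_max_right 0 (JJ w' - 2)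
  by_contra hc
  push Not at hc
  set e := JJ w - 2 with he
  have he0 : 0 < e := by
    rw [he]
    linarith
  have h5 : 2 + 4 * e ≤ ‖(w + w⁻¹) ^ 2 - 2‖ := by
    refine le_trans ?_ h2
    have : JJ w = 2 + e := by rw [he]; ring
    rw [this]
    nlinarith
  have h6 : (2 + 4 * e) ^ 2 ≤ ‖(w + w⁻¹) ^ 2 - 2‖ ^ 2 := pow_le_pow_left₀ (by positivity) h5 2
  rw [h1] at h6
  have h7 : ‖w' + w'⁻¹‖ = JJ w' := rfl
  rw [h7] at h6
  nlinarith

/-- `transfer_term` for the four points `w, I w, -w, -I w`, and `two_dim` -/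
theorem transfer (hp : 0 < p) (hp1 : p ≤ 3424 / 10000) (hw' : w' ∈ ball (0 : ℂ) 1) (h' : w' ≠ 0)
    (hw : w ∈ ball (0 : ℂ) 1) (h : w ≠ 0) (hP : w ^ 4 = Phi w') (hJ : JJ w' ≤ 201 / 100) :
    EE p * hh p w' ≤ mean4 (fun v => Real.exp (p * (LL v).re) * hh p v) w := by
  have hnw : -w ∈ ball (0 : ℂ) 1 := by
    rw [mem_ball_zero_iff] at hw ⊢
    rwa [norm_neg]
  have hiw : I * w ∈ ball (0 : ℂ) 1 := by
    rw [mem_ball_zero_iff] at hw ⊢
    rwa [norm_mul, norm_I, one_mul]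
  have hniw : -(I * w) ∈ ball (0 : ℂ) 1 := by
    rw [mem_ball_zero_iff] at hiw ⊢
    rwa [norm_neg]
  have hnw' : -w' ∈ ball (0 : ℂ) 1 := by
    rw [mem_ball_zero_iff] at hw' ⊢
    rwa [norm_neg]
  have hn0 : -w ≠ 0 := neg_ne_zero.mpr h
  have hi0 : I * w ≠ 0 := mul_ne_zero I_ne_zero h
  have hni0 : -(I * w) ≠ 0 := neg_ne_zero.mpr hi0
  have hn0' : -w' ≠ 0 := neg_ne_zero.mpr h'
  have hI4 : (I * w) ^ 4 = w ^ 4 := by
    rw [mul_pow, I_pow_four, one_mul]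
  have t0 := transfer_term p hw' h' hw h hP
  have t1 := transfer_term p hw' h' hiw hi0 (hI4.trans hP)
  have t2 := transfer_term p hw' h' hnw hn0 (by rw [← hP]; ring)
  have t3 := transfer_term p hw' h' hniw hni0 (by rw [← hP, ← hI4]; ring)
  rw [neg_neg, JJ_neg] at t2 t3
  have p0 := NN_pos hw h
  have p1 := NN_pos hiw hi0
  have p2 := NN_pos hnw hn0
  have p3 := NN_pos hniw hni0
  have p' := NN_pos hnw' hn0'
  have hprod := NN_prod hw' h' hw h hP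
  have hCS := re_im_sq h
  have hX1 := XX_ge h
  have e0 := NN_eq h
  have e2 := NN_neg h
  have e1 := NN_I h
  have e3 := NN_negI h
  have f02 : NN w * NN (-w) = 4 * XX w ^ 2 - 4 * (w.re / ‖w‖) ^ 2 := by
    rw [e0, e2]; ring
  have f13 : NN (I * w) * NN (-(I * w)) = 4 * XX w ^ 2 - 4 * (w.im / ‖w‖) ^ 2 := by
    rw [e1, e3]; ring
  have j0 : JJ w = Real.sqrt (4 * XX w ^ 2 - 4 * (w.im / ‖w‖) ^ 2) := by
    rw [← f13, ← JJ_sq h, Real.sqrt_sq (JJ_nonneg w)]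
  have j1 : JJ (I * w) = Real.sqrt (4 * XX w ^ 2 - 4 * (w.re / ‖w‖) ^ 2) := by
    rw [← f02, ← JJ_I h, Real.sqrt_sq (JJ_nonneg _)]
  have j' : JJ w' = ((4 * XX w ^ 2 - 4 * (w.re / ‖w‖) ^ 2) ^ 2 +
      (4 * XX w ^ 2 - 4 * (w.im / ‖w‖) ^ 2) ^ 2) / 4 - 2 := by
    rw [JJ_eq hw' h' h hP, JJ_I h, JJ_sq h, f02, f13]
  have hF := two_dim hp hp1 hX1 hCS (by rw [j'] at hJ; linarith)
  obtain ⟨t, ht⟩ : ∃ t, t = NN (-w') ^ (p / 4) := ⟨_, rfl⟩
  have htpos : 0 < t := by rw [ht]; exact Real.rpow_pos_of_pos p' _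
  rw [← ht] at t0 t1 t2 t3
  have hh' : hh p w' * t = 1 + b1 p * NN (-w') ^ (3 * p / 4) + b2 p * JJ w' := by
    rw [hh, ht]
    have h1 : NN (-w') ^ (-(p / 4)) * NN (-w') ^ (p / 4) = 1 := by
      rw [← Real.rpow_add p', neg_add_cancel, Real.rpow_zero]
    calc NN (-w') ^ (-(p / 4)) * (1 + b1 p * NN (-w') ^ (3 * p / 4) + b2 p * JJ w') *
          NN (-w') ^ (p / 4)
        = (NN (-w') ^ (-(p / 4)) * NN (-w') ^ (p / 4)) *
            (1 + b1 p * NN (-w') ^ (3 * p / 4) + b2 p * JJ w') := by ring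
      _ = _ := by rw [h1, one_mul]
  have m02 : NN w ^ (3 * p / 4) * NN (-w) ^ (3 * p / 4) = (NN w * NN (-w)) ^ (3 * p / 4) :=
    (Real.mul_rpow p0.le p2.le).symm
  have m13 : NN (I * w) ^ (3 * p / 4) * NN (-(I * w)) ^ (3 * p / 4) =
      (NN (I * w) * NN (-(I * w))) ^ (3 * p / 4) :=
    (Real.mul_rpow p1.le p3.le).symm
  have hN' : NN (-w') = NN w * NN (-w) * (NN (I * w) * NN (-(I * w))) / 2 := by
    rw [← hprod]; ring
  have hsum : mean4 (fun v => Real.exp (p * (LL v).re) * hh p v) w * t =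
      kk p / 4 * (NN w ^ (3 * p / 4) + NN (-w) ^ (3 * p / 4) + NN (-(I * w)) ^ (3 * p / 4) +
        NN (I * w) ^ (3 * p / 4)) +
      kk p * b1 p / 2 * (NN w ^ (3 * p / 4) * NN (-w) ^ (3 * p / 4) +
        NN (I * w) ^ (3 * p / 4) * NN (-(I * w)) ^ (3 * p / 4)) +
      kk p * b2 p / 4 * (JJ w * (NN w ^ (3 * p / 4) + NN (-w) ^ (3 * p / 4)) +
        JJ (I * w) * (NN (-(I * w)) ^ (3 * p / 4) + NN (I * w) ^ (3 * p / 4))) := by
    rw [mean4]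
    have h1 : (Real.exp (p * (LL w).re) * hh p w + Real.exp (p * (LL (I * w)).re) * hh p (I * w) +
        Real.exp (p * (LL (-w)).re) * hh p (-w) +
        Real.exp (p * (LL (-(I * w))).re) * hh p (-(I * w))) / 4 * t =
        (Real.exp (p * (LL w).re) * hh p w * t + Real.exp (p * (LL (I * w)).re) * hh p (I * w) * t +
        Real.exp (p * (LL (-w)).re) * hh p (-w) * t +
        Real.exp (p * (LL (-(I * w))).re) * hh p (-(I * w)) * t) / 4 := by ring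
    rw [h1, t0, t1, t2, t3]
    ring
  have hkey : EE p * hh p w' * t ≤
      mean4 (fun v => Real.exp (p * (LL v).re) * hh p v) w * t := by
    rw [mul_assoc, hh', hsum, m02, m13, j', hN', f02, f13, j0, j1, e0, e1, e2, e3]
    rw [FF] at hF
    linarith
  exact le_of_mul_le_mul_right hkey htpos

private theorem start_ineq_aux (hp : 0 < p) {a b s n : ℝ} (ha : 0 < a) (hb : 0 < b) (hs : 0 < s)
    (h : 2 * n = a * b * s) (h1 : 2 ≤ a * b) :
    1 ≤ (a ^ (p / 2) * s ^ (-(p / 4)) + b ^ (p / 2) * s ^ (-(p / 4))) * n ^ (p / 4) := by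
  have hn : n = a * b / 2 * s := by linarith
  have h2 : n ^ (p / 4) = (a * b / 2) ^ (p / 4) * s ^ (p / 4) := by
    rw [hn, Real.mul_rpow (by positivity) hs.le]
  have h3 : s ^ (-(p / 4)) * s ^ (p / 4) = 1 := by
    rw [← Real.rpow_add hs, neg_add_cancel, Real.rpow_zero]
  have h4 : 1 ≤ (a * b / 2) ^ (p / 4) := Real.one_le_rpow (by linarith) (by positivity)
  have ha' := Real.rpow_nonneg ha.le (p / 2)
  have hb' := Real.rpow_nonneg hb.le (p / 2)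
  have h5 : 1 ≤ a ^ (p / 2) + b ^ (p / 2) := by
    rcases le_total 1 a with h6 | h6
    · have := Real.one_le_rpow h6 (by positivity : (0 : ℝ) ≤ p / 2)
      linarith
    · have h7 : 1 ≤ b := by nlinarith
      have := Real.one_le_rpow h7 (by positivity : (0 : ℝ) ≤ p / 2)
      linarith
  have h6 : 1 ≤ (a ^ (p / 2) + b ^ (p / 2)) * (a * b / 2) ^ (p / 4) :=
    one_le_mul_of_one_le_of_one_le h5 h4
  rw [h2]
  linear_combination h6 + (-(a ^ (p / 2) + b ^ (p / 2)) * (a * b / 2) ^ (p / 4)) * h3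

theorem start_ineq (hp : 0 < p) (hp1 : p ≤ 3424 / 10000) : ∃ c : ℝ, 0 < c ∧
    ∀ w w' : ℂ, w' ∈ ball (0 : ℂ) 1 → w' ≠ 0 →
    w ∈ ball (0 : ℂ) 1 → w ≠ 0 → w ^ 4 = Phi w' → JJ w' ≤ 201 / 100 →
    c * hh p w' ≤ mean4 (fun v => Real.exp (p * (LL v).re)) w := by
  refine ⟨1 / 48, by norm_num, fun w w' hw' h' hw h hP hX => ?_⟩
  have hnw : -w ∈ ball (0 : ℂ) 1 := by
    rw [mem_ball_zero_iff] at hw ⊢
    rwa [norm_neg]
  have hIw : I * w ∈ ball (0 : ℂ) 1 := by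
    rw [mem_ball_zero_iff] at hw ⊢
    rwa [norm_mul, norm_I, one_mul]
  have hnIw : -(I * w) ∈ ball (0 : ℂ) 1 := by
    rw [mem_ball_zero_iff] at hw ⊢
    rwa [norm_neg, norm_mul, norm_I, one_mul]
  have hnw' : -w' ∈ ball (0 : ℂ) 1 := by
    rw [mem_ball_zero_iff] at hw' ⊢
    rwa [norm_neg]
  have n2 : -w ≠ 0 := neg_ne_zero.mpr h
  have n1 : I * w ≠ 0 := mul_ne_zero I_ne_zero h
  have n3 : -(I * w) ≠ 0 := neg_ne_zero.mpr n1
  have n' : -w' ≠ 0 := neg_ne_zero.mpr h'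
  have p0 := NN_pos hw h
  have p2 := NN_pos hnw n2
  have p1 := NN_pos hIw n1
  have p3 := NN_pos hnIw n3
  have p' := NN_pos hnw' n'
  have hprod := NN_prod hw' h' hw h hP
  have i1 : I * (I * w) = -w := by rw [← mul_assoc, I_mul_I, neg_one_mul]
  have i2 : I * -w = -(I * w) := by rw [mul_neg]
  have i3 : I * -(I * w) = w := by rw [mul_neg, i1, neg_neg]
  have e0 := exp_p_LL p hw h
  have e2 := exp_p_LL p hnw n2
  rw [i2, neg_neg] at e2
  have e1 := exp_p_LL p hIw n1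
  rw [i1, neg_neg] at e1
  have e3 := exp_p_LL p hnIw n3
  rw [i3] at e3
  have s1 := NN_eq h
  have s2 := NN_neg h
  have s3 := NN_I h
  have s4 := NN_negI h
  have s5 := re_im_sq h
  have s6 := XX_ge h
  have hsum : 4 ≤ NN w * NN (-w) + NN (I * w) * NN (-(I * w)) := by
    rw [s1, s2, s3, s4]
    nlinarith [mul_self_nonneg (XX w - 1)]
  have hone : 1 ≤ (Real.exp (p * (LL w).re) + Real.exp (p * (LL (I * w)).re) +
      Real.exp (p * (LL (-w)).re) + Real.exp (p * (LL (-(I * w))).re)) *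
      NN (-w') ^ (p / 4) := by
    have hq : 0 < NN (-w') ^ (p / 4) := Real.rpow_pos_of_pos p' _
    have q0 := Real.exp_pos (p * (LL w).re)
    have q1 := Real.exp_pos (p * (LL (I * w)).re)
    have q2 := Real.exp_pos (p * (LL (-w)).re)
    have q3 := Real.exp_pos (p * (LL (-(I * w))).re)
    rcases le_or_gt 2 (NN w * NN (-w)) with h2 | h2
    · have h3 := start_ineq_aux hp p0 p2 (mul_pos p1 p3) hprod h2
      rw [← e0, mul_comm (NN (I * w)) (NN (-(I * w))), ← e2] at h3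
      refine h3.trans (mul_le_mul_of_nonneg_right ?_ hq.le)
      linarith
    · have h4 : 2 ≤ NN (I * w) * NN (-(I * w)) := by linarith
      have h3 := start_ineq_aux hp (n := NN (-w')) p1 p3 (mul_pos p0 p2) (by rw [hprod]; ring) h4
      rw [← e3, mul_comm (NN w) (NN (-w)), ← e1] at h3
      refine h3.trans (mul_le_mul_of_nonneg_right ?_ hq.le)
      linarith
  have hh1 : hh p w' * NN (-w') ^ (p / 4) =
      1 + b1 p * NN (-w') ^ (3 * p / 4) + b2 p * JJ w' := by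
    have h3 : NN (-w') ^ (-(p / 4)) * NN (-w') ^ (p / 4) = 1 := by
      rw [← Real.rpow_add p', neg_add_cancel, Real.rpow_zero]
    rw [hh]
    linear_combination (1 + b1 p * NN (-w') ^ (3 * p / 4) + b2 p * JJ w') * h3
  have hN8 : NN (-w') ≤ 8 := by
    have h3 := NN_le_JJ h'
    linarith
  have ha : NN (-w') ^ (3 * p / 4) ≤ 8 := by
    have h3 : NN (-w') ^ (3 * p / 4) ≤ 8 ^ (3 * p / 4) :=
      Real.rpow_le_rpow p'.le hN8 (by positivity)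
    have h4 : (8 : ℝ) ^ (3 * p / 4) ≤ 8 ^ (1 : ℝ) :=
      Real.rpow_le_rpow_of_exponent_le (by norm_num) (by linarith)
    rw [Real.rpow_one] at h4
    exact h3.trans h4
  have hb : b1 p * NN (-w') ^ (3 * p / 4) + b2 p * JJ w' ≤ 11 := by
    have k1 := mul_le_mul (b1_le hp) ha (Real.rpow_nonneg p'.le _) (by norm_num)
    have k2 := mul_le_mul (b2_le hp hp1) hX (JJ_nonneg _) (by norm_num)
    linarith
  have hq : 0 < NN (-w') ^ (p / 4) := Real.rpow_pos_of_pos p' _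
  refine le_of_mul_le_mul_right ?_ hq
  rw [mean4, mul_assoc, hh1]
  have h9 : (Real.exp (p * (LL w).re) + Real.exp (p * (LL (I * w)).re) +
      Real.exp (p * (LL (-w)).re) + Real.exp (p * (LL (-(I * w))).re)) / 4 *
      NN (-w') ^ (p / 4) = ((Real.exp (p * (LL w).re) +
      Real.exp (p * (LL (I * w)).re) + Real.exp (p * (LL (-w)).re) +
      Real.exp (p * (LL (-(I * w))).re)) * NN (-w') ^ (p / 4)) / 4 := by ring
  change 1 / 48 * (1 + b1 p * NN (-w') ^ (3 * p / 4) + b2 p * JJ w') ≤ (Real.exp (p * (LL w).re) +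
      Real.exp (p * (LL (I * w)).re) + Real.exp (p * (LL (-w)).re) +
      Real.exp (p * (LL (-(I * w))).re)) / 4 * NN (-w') ^ (p / 4)
  rw [h9]
  linarith

/-- `NN (-w) ≤ |J w| + 2 ≤ 8`, `hh w ≥ 8^(-p/4) ≥ 1/2` -/
theorem hh_lower (hp : 0 < p) (hp1 : p ≤ 3424 / 10000) (hw : w ∈ ball (0 : ℂ) 1) (h : w ≠ 0)
    (hX : JJ w ≤ 201 / 100) : 1 / 2 ≤ hh p w := by
  have hw2 : -w ∈ ball (0 : ℂ) 1 := by
    rw [mem_ball_zero_iff, norm_neg]
    exact mem_ball_zero_iff.mp hw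
  have h2 : -w ≠ 0 := neg_ne_zero.mpr h
  have hN : 0 < NN (-w) := NN_pos hw2 h2
  have hN8 : NN (-w) ≤ 8 := by
    have h3 := NN_le_JJ h
    linarith
  have h4 : (8 : ℝ) ^ (-(p / 4)) ≤ NN (-w) ^ (-(p / 4)) :=
    Real.rpow_le_rpow_of_nonpos hN hN8 (by linarith)
  have h5 : (1 / 2 : ℝ) ≤ (8 : ℝ) ^ (-(p / 4)) := by
    have h6 : (8 : ℝ) ^ (-(1 / 3) : ℝ) = 1 / 2 := by
      have h7 : (8 : ℝ) = 2 ^ (3 : ℝ) := by norm_num
      rw [h7, ← Real.rpow_mul (by norm_num)]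
      rw [show (3 : ℝ) * (-(1 / 3)) = -1 by norm_num, Real.rpow_neg_one]
      norm_num
    rw [← h6]
    exact Real.rpow_le_rpow_of_exponent_le (by norm_num) (by linarith)
  have h8 : 0 ≤ NN (-w) ^ (3 * p / 4) := Real.rpow_nonneg hN.le _
  have h9 : 0 ≤ NN (-w) ^ (-(p / 4)) := Real.rpow_nonneg hN.le _
  unfold hh
  have h10 : (0 : ℝ) ≤ b1 p * NN (-w) ^ (3 * p / 4) := mul_nonneg (b1_pos p).le h8
  have h11 : (0 : ℝ) ≤ b2 p * JJ w := mul_nonneg (b2_nonneg hp hp1) (JJ_nonneg w)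
  nlinarith [mul_nonneg h9 (add_nonneg h10 h11)]

end Pool.Agent.Helper42.KU
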