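import Pool.Agent.Helper42.KU.Tay

/-!
# Project KU: soundness of the cell check
-/

set_option autoImplicit false

namespace Pool.Agent.Helper42.KU

open Real

/-- the expression to be bounded below, divided by the positive factor `NN (-w')^(p/4)` -/
noncomputable def GG (s ρ1 ρ2 Y σ τ ν1 ν3 : ℝ) : ℝ :=
  1 / 4 * exp (-(400 * s)) * (ν1 + σ / ν1 + ν3 + τ / ν3) + 1 / 4 * exp (-(5728 * s)) * (σ + τ) -
    exp (1699056 * s ^ 2) * (1 + 1 / 2 * exp (-(6528 * s)) * (σ * τ)) +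
    432000 * s ^ 2 * (1 - 2640 * s) * (1 / (4 * exp (1699056 * s ^ 2)) * exp (-(400 * s)) *
      (ρ2 * (ν1 + σ / ν1) + ρ1 * (ν3 + τ / ν3)) - Y)

/-- `ν + σ / ν` is increasing in `ν` for `ν^2 ≥ σ` -/
theorem inc {σ ν ν' : ℝ} (h0 : 0 < ν') (h : ν' ≤ ν) (hσ : σ ≤ ν' * ν) : ν' + σ / ν' ≤ ν + σ / ν := by
  have h1 : 0 < ν := lt_of_lt_of_le h0 h
  have e : ν + σ / ν - (ν' + σ / ν') = (ν - ν') * (ν' * ν - σ) / (ν' * ν) := by
    field_simp
    ring
  have h2 : 0 ≤ (ν - ν') * (ν' * ν - σ) / (ν' * ν) := by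
    apply div_nonneg
    · exact mul_nonneg (by linarith) (by linarith)
    · positivity
  linarith

/-- the main part at corner values -/
theorem main_ge {s : ℝ} (hs : 0 < s) (hs1 : s * 6740 < 1) {y y2 n1 n3 : ℤ} (hy : y + y2 ≤ 6528) :
    ev (m1 y y2 n1 n3) s ≤ 181440 * (1 / 4 * exp (-(400 * s)) *
      (exp (n1 * s) + exp (y * s) / exp (n1 * s) + exp (n3 * s) + exp (y2 * s) / exp (n3 * s)) +
      1 / 4 * exp (-(5728 * s)) * (exp (y * s) + exp (y2 * s)) -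
      exp (1699056 * s ^ 2) * (1 + 1 / 2 * exp (-(6528 * s)) * (exp (y * s) * exp (y2 * s)))) := by
  have hE := ev_E18 (s := s) (by nlinarith)
  have hm : y + y2 - 6528 ≤ 0 := by omega
  have hN := ev_N6 hm hs.le
  have a1 := ev_T7 (n1 - 400) s
  have a2 := ev_T7 (n3 - 400) s
  have a3 := ev_T7 (y2 - n3 - 400) s
  have a4 := ev_T7 (y2 - 5728) s
  have a5 := ev_T7 (y - n1 - 400) s
  have a6 := ev_T7 (y - 5728) s
  have e1 : exp (((n1 - 400 : ℤ) : ℝ) * s) = exp (-(400 * s)) * exp (n1 * s) := by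
    rw [← exp_add]; push_cast; ring_nf
  have e2 : exp (((n3 - 400 : ℤ) : ℝ) * s) = exp (-(400 * s)) * exp (n3 * s) := by
    rw [← exp_add]; push_cast; ring_nf
  have e3 : exp (((y2 - n3 - 400 : ℤ) : ℝ) * s) = exp (-(400 * s)) * (exp (y2 * s) / exp (n3 * s)) := by
    rw [← exp_sub, ← exp_add]; push_cast; ring_nf
  have e4 : exp (((y2 - 5728 : ℤ) : ℝ) * s) = exp (-(5728 * s)) * exp (y2 * s) := by
    rw [← exp_add]; push_cast; ring_nf
  have e5 : exp (((y - n1 - 400 : ℤ) : ℝ) * s) = exp (-(400 * s)) * (exp (y * s) / exp (n1 * s)) := by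
    rw [← exp_sub, ← exp_add]; push_cast; ring_nf
  have e6 : exp (((y - 5728 : ℤ) : ℝ) * s) = exp (-(5728 * s)) * exp (y * s) := by
    rw [← exp_add]; push_cast; ring_nf
  have e7 : exp (((y + y2 - 6528 : ℤ) : ℝ) * s) = exp (-(6528 * s)) * (exp (y * s) * exp (y2 * s)) := by
    rw [← exp_add, ← exp_add]; push_cast; ring_nf
  rw [e1] at a1
  rw [e2] at a2
  rw [e3] at a3
  rw [e4] at a4
  rw [e5] at a5
  rw [e6] at a6
  rw [e7] at hN
  have hEN : 18 * exp (1699056 * s ^ 2) *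
      (1440 + 720 * (exp (-(6528 * s)) * (exp (y * s) * exp (y2 * s)))) ≤
      ev E18 s * ev (N6 (y + y2 - 6528)) s :=
    mul_le_mul hE hN (by positivity) (le_trans (by positivity) hE)
  simp only [m1, pa, ev_add, ev_smul, ev_mul]
  push_cast
  linarith

/-- the main part for `σ = 0` -/
theorem main0_ge {s : ℝ} (hs : 0 < s) (hs1 : s * 6740 < 1) {y2 n1 n3 : ℤ} :
    ev (m0 y2 n1 n3) s ≤ 181440 * (1 / 4 * exp (-(400 * s)) *
      (exp (n1 * s) + 0 / exp (n1 * s) + exp (n3 * s) + exp (y2 * s) / exp (n3 * s)) +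
      1 / 4 * exp (-(5728 * s)) * (0 + exp (y2 * s)) -
      exp (1699056 * s ^ 2) * (1 + 1 / 2 * exp (-(6528 * s)) * (0 * exp (y2 * s)))) := by
  have hE := ev_E18 (s := s) (by nlinarith)
  have a1 := ev_T7 (n1 - 400) s
  have a2 := ev_T7 (n3 - 400) s
  have a3 := ev_T7 (y2 - n3 - 400) s
  have a4 := ev_T7 (y2 - 5728) s
  have e1 : exp (((n1 - 400 : ℤ) : ℝ) * s) = exp (-(400 * s)) * exp (n1 * s) := by
    rw [← exp_add]; push_cast; ring_nf
  have e2 : exp (((n3 - 400 : ℤ) : ℝ) * s) = exp (-(400 * s)) * exp (n3 * s) := by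
    rw [← exp_add]; push_cast; ring_nf
  have e3 : exp (((y2 - n3 - 400 : ℤ) : ℝ) * s) = exp (-(400 * s)) * (exp (y2 * s) / exp (n3 * s)) := by
    rw [← exp_sub, ← exp_add]; push_cast; ring_nf
  have e4 : exp (((y2 - 5728 : ℤ) : ℝ) * s) = exp (-(5728 * s)) * exp (y2 * s) := by
    rw [← exp_add]; push_cast; ring_nf
  rw [e1] at a1
  rw [e2] at a2
  rw [e3] at a3
  rw [e4] at a4
  rw [zero_div, zero_mul]
  simp only [m0, pa, ev_add, ev_smul]
  push_cast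
  linarith

/-- the part with `b2` -/
theorem bp_ge {s : ℝ} (hs : 0 < s) (hs1 : s * 6740 < 1) {y2 n3 r1 r2 Y : ℤ} (hr1 : 0 ≤ r1)
    (hr2 : 0 ≤ r2) {a : List ℤ} {α σ τ ν1 ν3 ρ1 ρ2 Z : ℝ} (hα : 0 ≤ α)
    (ha : ev a s ≤ 6 * (exp (-(400 * s)) * α)) (h1 : α ≤ ν1 + σ / ν1)
    (h3 : exp (n3 * s) ≤ ν3) (hτ : exp (y2 * s) ≤ τ) (hn3 : y2 ≤ 2 * n3)
    (hρ1 : (r1 : ℝ) / 1024 ≤ ρ1) (hρ2 : (r2 : ℝ) / 1024 ≤ ρ2) (hZ : Z ≤ (Y : ℝ) / 1024) :
    ev (bp a y2 n3 r1 r2 Y) s ≤ 181440 * (432000 * s ^ 2 * (1 - 2640 * s) *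
      (1 / (4 * exp (1699056 * s ^ 2)) * exp (-(400 * s)) *
      (ρ2 * (ν1 + σ / ν1) + ρ1 * (ν3 + τ / ν3)) - Z)) := by
  have hr1' : (0 : ℝ) ≤ r1 := by exact_mod_cast hr1
  have hr2' : (0 : ℝ) ≤ r2 := by exact_mod_cast hr2
  have b1 := ev_T3 (n3 - 400) s
  have b2 := ev_T3 (y2 - n3 - 400) s
  have e2 : exp (((n3 - 400 : ℤ) : ℝ) * s) = exp (-(400 * s)) * exp (n3 * s) := by
    rw [← exp_add]; push_cast; ring_nf
  have e3 : exp (((y2 - n3 - 400 : ℤ) : ℝ) * s) = exp (-(400 * s)) * (exp (y2 * s) / exp (n3 * s)) := by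
    rw [← exp_sub, ← exp_add]; push_cast; ring_nf
  rw [e2] at b1
  rw [e3] at b2
  have hn3' : (y2 : ℝ) ≤ 2 * n3 := by exact_mod_cast hn3
  have p3 : 0 < ν3 := lt_of_lt_of_le (exp_pos _) h3
  -- `ν3 + τ / ν3`
  have c1 : exp (n3 * s) + exp (y2 * s) / exp (n3 * s) ≤ ν3 + τ / ν3 := by
    refine le_trans (inc (exp_pos _) h3 ?_) ?_
    · calc exp (y2 * s) ≤ exp (n3 * s) * exp (n3 * s) := by
            rw [← exp_add]
            apply exp_le_exp.2
            nlinarith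
        _ ≤ exp (n3 * s) * ν3 := mul_le_mul_of_nonneg_left h3 (exp_pos _).le
    · have := div_le_div_of_nonneg_right hτ p3.le
      linarith
  have k0 : 0 < exp (-(400 * s)) := exp_pos _
  -- the sum
  have c2 : (r2 : ℝ) / 1024 * α + r1 / 1024 * (exp (n3 * s) + exp (y2 * s) / exp (n3 * s)) ≤
      ρ2 * (ν1 + σ / ν1) + ρ1 * (ν3 + τ / ν3) := by
    refine add_le_add (mul_le_mul hρ2 h1 hα (le_trans (by positivity) hρ2))
      (mul_le_mul hρ1 c1 (by positivity) (le_trans (by positivity) hρ1))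
  have c3 : 1 - 1699056 * s ^ 2 ≤ 1 / exp (1699056 * s ^ 2) := by
    rw [one_div, ← exp_neg]
    have := add_one_le_exp (-(1699056 * s ^ 2))
    linarith
  have c4 : 0 ≤ 1 - 1699056 * s ^ 2 := by nlinarith
  set W : ℝ := exp (-(400 * s)) *
    ((r2 : ℝ) * α + r1 * (exp (n3 * s) + exp (y2 * s) / exp (n3 * s))) with hW
  have hW0 : 0 ≤ W := by positivity
  have c5 : ev (mul [1, 0, -1699056]
      (add (smul r2 a) (smul r1 (add (T3 (n3 - 400)) (T3 (y2 - n3 - 400)))))) s ≤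
      (1 - 1699056 * s ^ 2) * (6 * W) := by
    have e : ev [1, 0, -1699056] s = 1 - 1699056 * s ^ 2 := by
      simp only [ev]
      push_cast
      ring
    rw [ev_mul, e]
    refine mul_le_mul_of_nonneg_left ?_ c4
    rw [ev_add, ev_smul, ev_smul, ev_add]
    have d1 := mul_le_mul_of_nonneg_left ha hr2'
    have d2 := mul_le_mul_of_nonneg_left (add_le_add b1 b2) hr1'
    rw [hW]
    nlinarith
  have c6 : (1 - 1699056 * s ^ 2) * (6 * W) ≤ 24576 * (1 / (4 * exp (1699056 * s ^ 2)) *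
      exp (-(400 * s)) * (ρ2 * (ν1 + σ / ν1) + ρ1 * (ν3 + τ / ν3))) := by
    have d1 : (1 - 1699056 * s ^ 2) * (6 * W) ≤ 1 / exp (1699056 * s ^ 2) * (6 * W) :=
      mul_le_mul_of_nonneg_right c3 (by positivity)
    have d2 : exp (-(400 * s)) * ((r2 : ℝ) / 1024 * α +
        r1 / 1024 * (exp (n3 * s) + exp (y2 * s) / exp (n3 * s))) ≤
        exp (-(400 * s)) * (ρ2 * (ν1 + σ / ν1) + ρ1 * (ν3 + τ / ν3)) :=
      mul_le_mul_of_nonneg_left c2 k0.le
    have d3 := mul_le_mul_of_nonneg_left d2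
      (by positivity : (0 : ℝ) ≤ 6144 * (1 / exp (1699056 * s ^ 2)))
    have d4 : 1 / exp (1699056 * s ^ 2) * (6 * W) = 6144 * (1 / exp (1699056 * s ^ 2)) *
        (exp (-(400 * s)) * ((r2 : ℝ) / 1024 * α +
        r1 / 1024 * (exp (n3 * s) + exp (y2 * s) / exp (n3 * s)))) := by
      rw [hW]
      ring
    have d5 : 24576 * (1 / (4 * exp (1699056 * s ^ 2)) *
        exp (-(400 * s)) * (ρ2 * (ν1 + σ / ν1) + ρ1 * (ν3 + τ / ν3))) =
        6144 * (1 / exp (1699056 * s ^ 2)) *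
        (exp (-(400 * s)) * (ρ2 * (ν1 + σ / ν1) + ρ1 * (ν3 + τ / ν3))) := by
      field_simp
      ring
    rw [d5]
    linarith
  have c7 : ev (add (mul [1, 0, -1699056]
      (add (smul r2 a) (smul r1 (add (T3 (n3 - 400)) (T3 (y2 - n3 - 400)))))) [-24 * Y]) s ≤
      24576 * (1 / (4 * exp (1699056 * s ^ 2)) *
      exp (-(400 * s)) * (ρ2 * (ν1 + σ / ν1) + ρ1 * (ν3 + τ / ν3)) - Z) := by
    rw [ev_add]
    simp only [ev] at c5 ⊢
    push_cast
    linarith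
  have c8 : (0 : ℝ) ≤ 3189375 * s ^ 2 * (1 - 2640 * s) := by
    have : 0 ≤ 1 - 2640 * s := by linarith
    positivity
  have c9 := mul_le_mul_of_nonneg_left c7 c8
  unfold bp
  rw [ev_mul]
  have e : ev [0, 0, 3189375, -8419950000] s = 3189375 * s ^ 2 * (1 - 2640 * s) := by
    simp only [ev]
    push_cast
    ring
  rw [e]
  refine c9.trans (le_of_eq ?_)
  ring

/-- an affine function is nonnegative between two points where it is nonnegative -/
theorem aff {a b x x0 x1 : ℝ} (h0 : 0 ≤ a + b * x0) (h1 : 0 ≤ a + b * x1) (hx0 : x0 ≤ x)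
    (hx1 : x ≤ x1) : 0 ≤ a + b * x := by
  rcases le_total 0 b with h | h
  · nlinarith
  · nlinarith

theorem ok_nonneg {l : List ℤ} (h : ok l = true) {s : ℝ} (h0 : 0 ≤ s) (h1 : s * 6740 < 1) :
    0 ≤ ev l s := hom_nonneg (N := 6740) (by norm_num) h h0 (by push_cast; exact h1)

/-- soundness of `cell3` -/
theorem cell3_sound {z : Bool} {yl yh y2 n1 n3 r1 r2 Y : ℤ}
    (h : cell3 z yl yh y2 n1 n3 r1 r2 Y = true) (hr1 : 0 ≤ r1) (hr2 : 0 ≤ r2) {s : ℝ} (hs : 0 < s)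
    (hs1 : s * 6740 < 1) {σ τ ν1 ν3 ρ1 ρ2 Z : ℝ} (hσ0 : 0 ≤ σ) (hσ : z = false → exp (yl * s) ≤ σ)
    (hσ' : σ ≤ exp (yh * s)) (hτ : exp (y2 * s) ≤ τ) (h1 : exp (n1 * s) ≤ ν1)
    (h3 : exp (n3 * s) ≤ ν3) (hρ1 : (r1 : ℝ) / 1024 ≤ ρ1) (hρ2 : (r2 : ℝ) / 1024 ≤ ρ2)
    (hZ : Z ≤ (Y : ℝ) / 1024)
    (hK : 0 ≤ 1 / 4 * exp (-(400 * s)) / ν3 + 1 / 4 * exp (-(5728 * s)) -
      1 / 2 * exp (1699056 * s ^ 2) * exp (-(6528 * s)) * σ) :
    0 ≤ GG s ρ1 ρ2 Z σ τ ν1 ν3 := by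
  unfold cell3 at h
  simp only [Bool.and_eq_true, decide_eq_true_eq] at h
  obtain ⟨⟨⟨hn1, hn3⟩, hyy⟩, hz⟩ := h
  have hn1' : (yh : ℝ) ≤ 2 * n1 := by exact_mod_cast hn1
  have hn3' : (y2 : ℝ) ≤ 2 * n3 := by exact_mod_cast hn3
  have p1 : 0 < ν1 := lt_of_lt_of_le (exp_pos _) h1
  have p3 : 0 < ν3 := lt_of_lt_of_le (exp_pos _) h3
  -- monotonicity in `ν1`
  have i1 : exp (n1 * s) + σ / exp (n1 * s) ≤ ν1 + σ / ν1 := by
    refine inc (exp_pos _) h1 (hσ'.trans ?_)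
    calc exp (yh * s) ≤ exp (n1 * s) * exp (n1 * s) := by
          rw [← exp_add]
          apply exp_le_exp.2
          nlinarith
      _ ≤ exp (n1 * s) * ν1 := mul_le_mul_of_nonneg_left h1 (exp_pos _).le
  -- monotonicity in `ν3`
  have i3 : exp (n3 * s) + exp (y2 * s) / exp (n3 * s) ≤ ν3 + exp (y2 * s) / ν3 := by
    refine inc (exp_pos _) h3 ?_
    calc exp (y2 * s) ≤ exp (n3 * s) * exp (n3 * s) := by
          rw [← exp_add]
          apply exp_le_exp.2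
          nlinarith
      _ ≤ exp (n3 * s) * ν3 := mul_le_mul_of_nonneg_left h3 (exp_pos _).le
  set k : ℝ := exp (-(400 * s)) with hk
  set k5 : ℝ := exp (-(5728 * s)) with hk5
  set k6 : ℝ := exp (-(6528 * s)) with hk6
  set E : ℝ := exp (1699056 * s ^ 2) with hE
  have hk0 : 0 < k := exp_pos _
  have hk50 : 0 < k5 := exp_pos _
  have hE0 : 0 < E := exp_pos _
  set t2 : ℝ := exp (y2 * s) with ht2
  set u1 : ℝ := exp (n1 * s) with hu1
  set u3 : ℝ := exp (n3 * s) with hu3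
  have hu10 : 0 < u1 := exp_pos _
  have hu30 : 0 < u3 := exp_pos _
  -- the lower bound of the main part, affine in `σ`
  have m : (1 / 4 * k * (u1 + u3 + t2 / u3) + 1 / 4 * k5 * t2 - E) +
      (1 / 4 * k / u1 + 1 / 4 * k5 - 1 / 2 * E * k6 * t2) * σ ≤
      1 / 4 * k * (ν1 + σ / ν1 + ν3 + τ / ν3) + 1 / 4 * k5 * (σ + τ) -
        E * (1 + 1 / 2 * k6 * (σ * τ)) := by
    have e1 : (1 / 4 * k / ν3 + 1 / 4 * k5 - 1 / 2 * E * k6 * σ) * (τ - t2) ≥ 0 :=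
      mul_nonneg hK (by linarith)
    have e2 : 1 / 4 * k * (u1 + σ / u1) ≤ 1 / 4 * k * (ν1 + σ / ν1) :=
      mul_le_mul_of_nonneg_left i1 (by positivity)
    have e3 : 1 / 4 * k * (u3 + t2 / u3) ≤ 1 / 4 * k * (ν3 + t2 / ν3) :=
      mul_le_mul_of_nonneg_left i3 (by positivity)
    have e4 : 1 / 4 * k * (u1 + σ / u1) = 1 / 4 * k * u1 + 1 / 4 * k / u1 * σ := by
      field_simp
    have e5 : 1 / 4 * k * (ν3 + τ / ν3) - 1 / 4 * k * (ν3 + t2 / ν3) = 1 / 4 * k / ν3 * (τ - t2) := by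
      field_simp
      ring
    nlinarith
  cases z with
  | true =>
    simp only [cond_true, Bool.and_eq_true] at hz
    obtain ⟨z1, z2⟩ := hz
    have a0 := ok_nonneg z1 hs.le hs1
    have a1 := ok_nonneg z2 hs.le hs1
    rw [ev_add] at a0 a1
    have b0 := main0_ge hs hs1 (y2 := y2) (n1 := n1) (n3 := n3)
    have b1 := main_ge hs hs1 (y := yh) (y2 := y2) (n1 := n1) (n3 := n3) hyy
    have b2 := bp_ge hs hs1 (y2 := y2) (n3 := n3) (r1 := r1) (r2 := r2) (Y := Y) hr1 hr2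
      (a := T3 (n1 - 400)) (α := u1) (σ := σ) (τ := τ) (ν1 := ν1) (ν3 := ν3) (ρ1 := ρ1) (ρ2 := ρ2)
      (Z := Z) hu10.le
      (by
        have := ev_T3 (n1 - 400) s
        have e : exp (((n1 - 400 : ℤ) : ℝ) * s) = exp (-(400 * s)) * exp (n1 * s) := by
          rw [← exp_add]; push_cast; ring_nf
        rw [e] at this
        exact this)
      (by
        have : 0 ≤ σ / ν1 := by positivity
        linarith)
      h3 hτ hn3 hρ1 hρ2 hZ
    simp only [← hk, ← hk5, ← hk6, ← hE, ← ht2, ← hu1, ← hu3] at b0 b1 b2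
    unfold GG
    simp only [← hk, ← hk5, ← hk6, ← hE]
    set V : ℝ := 432000 * s ^ 2 * (1 - 2640 * s) * (1 / (4 * E) * k *
      (ρ2 * (ν1 + σ / ν1) + ρ1 * (ν3 + τ / ν3)) - Z) with hV
    have key : 0 ≤ ((1 / 4 * k * (u1 + u3 + t2 / u3) + 1 / 4 * k5 * t2 - E) + V) +
        (1 / 4 * k / u1 + 1 / 4 * k5 - 1 / 2 * E * k6 * t2) * σ := by
      refine aff (x0 := 0) (x1 := exp (yh * s)) ?_ ?_ hσ0 hσ'
      · have e : 1 / 4 * k * (u1 + 0 / u1 + u3 + t2 / u3) + 1 / 4 * k5 * (0 + t2) -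
            E * (1 + 1 / 2 * k6 * (0 * t2)) =
            (1 / 4 * k * (u1 + u3 + t2 / u3) + 1 / 4 * k5 * t2 - E) +
            (1 / 4 * k / u1 + 1 / 4 * k5 - 1 / 2 * E * k6 * t2) * 0 := by
          ring
        rw [e] at b0
        linarith
      · have e : 1 / 4 * k * (u1 + exp (yh * s) / u1 + u3 + t2 / u3) +
            1 / 4 * k5 * (exp (yh * s) + t2) - E * (1 + 1 / 2 * k6 * (exp (yh * s) * t2)) =
            (1 / 4 * k * (u1 + u3 + t2 / u3) + 1 / 4 * k5 * t2 - E) +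
            (1 / 4 * k / u1 + 1 / 4 * k5 - 1 / 2 * E * k6 * t2) * exp (yh * s) := by
          ring
        rw [e] at b1
        linarith
    linarith
  | false =>
    simp only [cond_false, Bool.and_eq_true] at hz
    obtain ⟨z1, z2⟩ := hz
    have hl := hσ rfl
    have a0 := ok_nonneg z2 hs.le hs1
    have a1 := ok_nonneg z1 hs.le hs1
    rw [ev_add] at a0 a1
    have hlh : yl + y2 ≤ 6528 := by
      have : exp (yl * s) ≤ exp (yh * s) := hl.trans hσ'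
      rw [exp_le_exp] at this
      have h5 : (yl : ℝ) ≤ yh := le_of_mul_le_mul_right this hs
      have h6 : yl ≤ yh := by exact_mod_cast h5
      omega
    have b0 := main_ge hs hs1 (y := yl) (y2 := y2) (n1 := n1) (n3 := n3) hlh
    have b1 := main_ge hs hs1 (y := yh) (y2 := y2) (n1 := n1) (n3 := n3) hyy
    have b2 := bp_ge hs hs1 (y2 := y2) (n3 := n3) (r1 := r1) (r2 := r2) (Y := Y) hr1 hr2
      (a := add (T3 (n1 - 400)) (T3 (yl - n1 - 400))) (α := u1 + exp (yl * s) / u1) (σ := σ) (τ := τ)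
      (ν1 := ν1) (ν3 := ν3) (ρ1 := ρ1) (ρ2 := ρ2) (Z := Z) (by positivity)
      (by
        have c1 := ev_T3 (n1 - 400) s
        have c2 := ev_T3 (yl - n1 - 400) s
        have e : exp (((n1 - 400 : ℤ) : ℝ) * s) = exp (-(400 * s)) * exp (n1 * s) := by
          rw [← exp_add]; push_cast; ring_nf
        have e' : exp (((yl - n1 - 400 : ℤ) : ℝ) * s) =
            exp (-(400 * s)) * (exp (yl * s) / exp (n1 * s)) := by
          rw [← exp_sub, ← exp_add]; push_cast; ring_nf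
        rw [e] at c1
        rw [e'] at c2
        rw [ev_add]
        linarith)
      (by
        refine le_trans ?_ i1
        have := div_le_div_of_nonneg_right hl hu10.le
        linarith)
      h3 hτ hn3 hρ1 hρ2 hZ
    simp only [← hk, ← hk5, ← hk6, ← hE, ← ht2, ← hu1, ← hu3] at b0 b1 b2
    unfold GG
    simp only [← hk, ← hk5, ← hk6, ← hE]
    set V : ℝ := 432000 * s ^ 2 * (1 - 2640 * s) * (1 / (4 * E) * k *
      (ρ2 * (ν1 + σ / ν1) + ρ1 * (ν3 + τ / ν3)) - Z) with hV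
    have e : ∀ y : ℝ, 1 / 4 * k * (u1 + y / u1 + u3 + t2 / u3) +
        1 / 4 * k5 * (y + t2) - E * (1 + 1 / 2 * k6 * (y * t2)) =
        (1 / 4 * k * (u1 + u3 + t2 / u3) + 1 / 4 * k5 * t2 - E) +
        (1 / 4 * k / u1 + 1 / 4 * k5 - 1 / 2 * E * k6 * t2) * y := by
      intro y
      ring
    rw [e] at b0 b1
    have key : 0 ≤ ((1 / 4 * k * (u1 + u3 + t2 / u3) + 1 / 4 * k5 * t2 - E) + V) +
        (1 / 4 * k / u1 + 1 / 4 * k5 - 1 / 2 * E * k6 * t2) * σ := by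
      refine aff (x0 := exp (yl * s)) (x1 := exp (yh * s)) ?_ ?_ hl hσ'
      · linarith
      · linarith
    linarith

end Pool.Agent.Helper42.KU
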