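import Pool.Agent.Helper42.KU.Ev

/-!
# Project KU: the cell check

Scales: exponents in units `1/1200` (logarithms to the base 2), `X = x / 2^16`, `u = v / 2^20`,
`C = (1 - u^2) / (1 + u^2)`, `S = 2 u / (1 + u^2)`, numbers `Q / 2^20`, square roots `R / 2^10`.
-/

set_option autoImplicit false

namespace Pool.Agent.Helper42.KU

/-- `5040` times the Taylor polynomial of degree 7 of `exp (m s)` -/
def T7 (m : ℤ) : List ℤ :=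
  [5040, 5040 * m, 2520 * m ^ 2, 840 * m ^ 3, 210 * m ^ 4, 42 * m ^ 5, 7 * m ^ 6, m ^ 7]

/-- `6` times the Taylor polynomial of degree 3 -/
def T3 (m : ℤ) : List ℤ := [6, 6 * m, 3 * m ^ 2, m ^ 3]

/-- `1440 + 720` times the Taylor polynomial of degree 6 -/
def N6 (m : ℤ) : List ℤ := [2160, 720 * m, 360 * m ^ 2, 120 * m ^ 3, 30 * m ^ 4, 6 * m ^ 5, m ^ 6]

/-- `18` times an upper bound of `exp (1699056 s^2)` -/
def E18 : List ℤ := [18, 0, 30583008, 0, 25981121620224, 0, 19619280255809470464]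

/-- the four terms without `q1` -/
def pa (y2 n1 n3 : ℤ) : List ℤ :=
  add (T7 (n1 - 400)) (add (T7 (n3 - 400)) (add (T7 (y2 - n3 - 400)) (T7 (y2 - 5728))))

/-- the main part for `q1 = 0` -/
def m0 (y2 n1 n3 : ℤ) : List ℤ := add (smul 9 (pa y2 n1 n3)) (smul (-10080) E18)

/-- the main part -/
def m1 (y y2 n1 n3 : ℤ) : List ℤ :=
  add (smul 9 (add (pa y2 n1 n3) (add (T7 (y - n1 - 400)) (T7 (y - 5728)))))
    (smul (-7) (mul E18 (N6 (y + y2 - 6528))))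

/-- the part with `b2`; `a` is the bound of `6 (N1^a + N2^a) 2^(-a/3)` -/
def bp (a : List ℤ) (y2 n3 r1 r2 Y : ℤ) : List ℤ :=
  mul [0, 0, 3189375, -8419950000]
    (add (mul [1, 0, -1699056] (add (smul r2 a) (smul r1 (add (T3 (n3 - 400)) (T3 (y2 - n3 - 400))))))
      [-24 * Y])

/-- the check of a polynomial on `[0, 1/6740)` -/
def ok (l : List ℤ) : Bool := nn (hom 6740 l).1

/-- numerator of `C` -/
def cn (v : ℕ) : ℕ := 2 ^ 40 - v ^ 2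
/-- numerator of `S` -/
def sn (v : ℕ) : ℕ := 2 ^ 21 * v
/-- denominator of `C` and `S` -/
def dn (v : ℕ) : ℕ := 2 ^ 40 + v ^ 2

/-- `Q / 2^20 ≤ 4 X^2 - 4 (c / d)^2` -/
def ql (x c d Q : ℕ) : Bool := Nat.ble (2 ^ 10 * d ^ 2 * Q + 2 ^ 32 * c ^ 2) (x ^ 2 * d ^ 2)
/-- `4 X^2 - 4 (c / d)^2 ≤ Q / 2^20` -/
def qh (x c d Q : ℕ) : Bool := Nat.ble (x ^ 2 * d ^ 2) (2 ^ 10 * d ^ 2 * Q + 2 ^ 32 * c ^ 2)
/-- `A / 2^20 ≤ 2 X + 2 c / d` -/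
def nl (x c d A : ℕ) : Bool := Nat.ble (d * A) (2 ^ 5 * (d * x) + 2 ^ 21 * c)

/-- `m / 1200 ≤ log_2 (Q / 2^20)` -/
def ll (m : ℤ) (Q : ℕ) : Bool := Nat.ble 1 Q && Nat.ble (2 ^ (m + 24000).toNat) (Q ^ 1200)
/-- `log_2 (Q / 2^20) ≤ m / 1200` -/
def lh (m : ℤ) (Q : ℕ) : Bool :=
  decide (0 ≤ m + 24000) && Nat.ble (Q ^ 1200) (2 ^ (m + 24000).toNat)

/-- the check with the logarithms -/
def cell3 (z : Bool) (yl yh y2 n1 n3 r1 r2 Y : ℤ) : Bool :=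
  decide (yh ≤ 2 * n1) && decide (y2 ≤ 2 * n3) && decide (yh + y2 ≤ 6528) &&
    bif z then ok (add (m0 y2 n1 n3) (bp (T3 (n1 - 400)) y2 n3 r1 r2 Y)) &&
      ok (add (m1 yh y2 n1 n3) (bp (T3 (n1 - 400)) y2 n3 r1 r2 Y))
    else ok (add (m1 yh y2 n1 n3) (bp (add (T3 (n1 - 400)) (T3 (yl - n1 - 400))) y2 n3 r1 r2 Y)) &&
      ok (add (m1 yl y2 n1 n3) (bp (add (T3 (n1 - 400)) (T3 (yl - n1 - 400))) y2 n3 r1 r2 Y))

/-- subdivision trees: `ot` the box is outside of the region, `lf` a leaf with the bounds of the corner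
values, their logarithms and square roots, `sx`, `su`: divide in `x`, `u` -/
inductive Tr
  | ot : ℕ → ℕ → Tr
  | lf : ℕ → ℕ → ℕ → ℕ → ℕ → ℕ → Bool → ℤ → ℤ → ℤ → ℤ → ℤ → ℕ → ℕ → ℕ → Tr
  | sx : ℕ → Tr → Tr → Tr
  | su : ℕ → Tr → Tr → Tr

/-- the check of a tree -/
def tc : Tr → ℕ → ℕ → ℕ → ℕ → Bool
  | Tr.ot Q1 Q2, x0, _, v0, v1 => Nat.ble v1 (2 ^ 20) && ql x0 (cn v0) (dn v0) Q1 &&
      ql x0 (sn v1) (dn v1) Q2 && Nat.ble (401 * 2 ^ 40 + 1) (25 * (Q1 ^ 2 + Q2 ^ 2))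
  | Tr.lf Q1 Q1' Q2 Q2' A1 A3 z yl yh y2 n1 n3 r1 r2 Y, x0, x1, v0, v1 =>
      Nat.ble v1 (2 ^ 20) && ql x0 (cn v0) (dn v0) Q1 && qh x1 (cn v1) (dn v1) Q1' &&
      ql x0 (sn v1) (dn v1) Q2 && qh x1 (sn v0) (dn v0) Q2' && nl x0 (cn v1) (dn v1) A1 && nl x0 (sn v0) (dn v0) A3 &&
      (z || ll yl Q1) && lh yh Q1' && ll y2 Q2 && ll n1 A1 && ll n3 A3 &&
      Nat.ble (r1 ^ 2) Q1 && Nat.ble (r2 ^ 2) Q2 &&
      (Nat.ble 2059 Y || Nat.ble (Q1' ^ 2 + Q2' ^ 2) (2 ^ 32 * Y + 2 ^ 43)) &&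
      cell3 z yl yh y2 n1 n3 r1 r2 Y
  | Tr.sx m l r, x0, x1, v0, v1 => tc l x0 m v0 v1 && tc r m x1 v0 v1
  | Tr.su m l r, x0, x1, v0, v1 => tc l x0 x1 v0 m && tc r x0 x1 m v1

end Pool.Agent.Helper42.KU
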