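import Pool.Agent.Helper42.KN.Fn

/-!
# Project KU (MP_433f59_an): the integral means of one univalent function for all exponents

`f` is the univalent function with `f z ^ 4 = Phi (f (z ^ 4))` (`KN`). For `0 < p ≤ 0.3424` the test
function `hh p w = NN (-w)^(-p/4) (1 + b1 NN (-w)^(3p/4) + b2 |w + 1/w|)` satisfies
`mean4 (exp (p Re LL) hh) w ≥ EE hh w'` (`w ^ 4 = Phi w'`, `|w' + 1/w'| ≤ 2.01`) with `EE ≥ 4^(0.23 p^2)`.
-/

set_option autoImplicit false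

namespace Pool.Agent.Helper42.KU

open Complex Metric Pool.Agent.Helper42.LB Pool.Agent.Helper42.KN

/-- the scale: `N^(3p/4) = exp (m s)` if `N = 2^(m/1200)` -/
noncomputable def sg (p : ℝ) : ℝ := 3 * p / 4 * Real.log 2 / 1200
/-- `2^(-p/4)` -/
noncomputable def kk (p : ℝ) : ℝ := Real.exp (-(400 * sg p))
/-- first coefficient, `2^(-4.44 (3p/4)) / 2` -/
noncomputable def b1 (p : ℝ) : ℝ := 1 / 2 * Real.exp (-(5328 * sg p))
/-- the factor, `≥ 4^(0.23 p^2)` -/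
noncomputable def EE (p : ℝ) : ℝ := Real.exp (1699056 * sg p ^ 2)
/-- second coefficient -/
noncomputable def b2 (p : ℝ) : ℝ := 432000 * sg p ^ 2 * (1 - 2640 * sg p) / EE p

/-- the function of three real variables -/
noncomputable def FF (p X C S : ℝ) : ℝ :=
  kk p / 4 * ((2 * X + 2 * C) ^ (3 * p / 4) + (2 * X - 2 * C) ^ (3 * p / 4) +
      (2 * X + 2 * S) ^ (3 * p / 4) + (2 * X - 2 * S) ^ (3 * p / 4)) +
    kk p * b1 p / 2 * ((4 * X ^ 2 - 4 * C ^ 2) ^ (3 * p / 4) + (4 * X ^ 2 - 4 * S ^ 2) ^ (3 * p / 4)) +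
    kk p * b2 p / 4 * (Real.sqrt (4 * X ^ 2 - 4 * S ^ 2) *
        ((2 * X + 2 * C) ^ (3 * p / 4) + (2 * X - 2 * C) ^ (3 * p / 4)) +
      Real.sqrt (4 * X ^ 2 - 4 * C ^ 2) *
        ((2 * X + 2 * S) ^ (3 * p / 4) + (2 * X - 2 * S) ^ (3 * p / 4))) -
    EE p * (1 + b1 p * ((4 * X ^ 2 - 4 * C ^ 2) * (4 * X ^ 2 - 4 * S ^ 2) / 2) ^ (3 * p / 4) +
      b2 p * (((4 * X ^ 2 - 4 * C ^ 2) ^ 2 + (4 * X ^ 2 - 4 * S ^ 2) ^ 2) / 4 - 2))

/-- `|w + 1/w|` -/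
noncomputable def JJ (w : ℂ) : ℝ := ‖w + w⁻¹‖

/-- the test function -/
noncomputable def hh (p : ℝ) (w : ℂ) : ℝ :=
  NN (-w) ^ (-(p / 4)) * (1 + b1 p * NN (-w) ^ (3 * p / 4) + b2 p * JJ w)

end Pool.Agent.Helper42.KU
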