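import Pool.Agent.Helper42.KU.Tr0
import Pool.Agent.Helper42.KU.Tr1
import Pool.Agent.Helper42.KU.Tr2
import Pool.Agent.Helper42.KU.Tr3
import Pool.Agent.Helper42.KU.Tr4
import Pool.Agent.Helper42.KU.Tr5
import Pool.Agent.Helper42.KU.Tr6
import Pool.Agent.Helper42.KU.Tr7

/-!
# Project KU: the subdivision tree
-/

set_option autoImplicit false

namespace Pool.Agent.Helper42.KU

open Tr

/-- the tree -/
def tr : Tr := (su 221184 (su 110592 t0 (sx 69120 (su 165888 (sx 67328 (su 138240 t1 (sx 66432 (su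
  152064 t2 (sx 65984 t3 t4)) t5)) t6) (su 193536 (sx 67328 (sx 66432 (su 179712 (sx 65984 (su
  172800 t7 t8) t9) (sx 65984 (su 186624 t10 (sx 65760 t11 t12)) t13)) t14) t15) (sx 67328 (su
  207360 (sx 66432 (su 200448 (sx 65984 (sx 65760 (su 196992 t16 t17) t18) t19) (sx 65984 (su
  203904 t20 t21) t22)) t23) (sx 66432 (su 214272 (sx 65984 (su 210816 t24 t25) t26) (sx 65984 (su
  217728 t27 t28) t29)) t30)) t31))) t32)) (su 331776 (su 276480 (sx 69120 (su 248832 (sx 67328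
  (su 235008 (sx 66432 (su 228096 (sx 65984 (su 224640 t33 t34) t35) t36) t37) (sx 66432 (su
  241920 t38 t39) t40)) t41) (sx 67328 (su 262656 (sx 66432 (su 255744 t42 t43) t44) (sx 66432 (su
  269568 t45 t46) t47)) t48)) (su 248832 t49 t50)) (sx 69120 (su 304128 (sx 67328 (su 290304 (sx
  66432 t51 t52) (sx 66432 t53 t54)) t55) (sx 67328 (su 317952 t56 t57) t58)) (su 304128 (sx 70912
  t59 t60) (sx 70912 t61 t62)))) (su 387072 (su 359424 (sx 69120 (sx 67328 (su 345600 t63 t64)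
  t65) (su 345600 (sx 70912 t66 t67) (sx 70912 t68 t69))) (sx 69120 (su 373248 (sx 67328 t70 t71)
  (sx 67328 (su 380160 t72 t73) t74)) (su 373248 (sx 70912 t75 t76) (sx 70912 t77 t78)))) (su
  414720 (sx 69120 (su 400896 (sx 67328 (su 393984 t79 t80) t81) (sx 67328 t82 t83)) (su 400896
  (sx 70912 t84 t85) (sx 70912 t86 t87))) (sx 69120 (su 428544 t88 t89) (su 428544 (sx 70912 t90
  (su 421632 t91 t92)) (sx 70912 t93 (su 435456 t94 t95))))))))

theorem tr_ok : tc tr 65536 72704 0 442368 = true := by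
  simp only [tr, tc, t0_ok, t1_ok, t2_ok, t3_ok, t4_ok, t5_ok, t6_ok, t7_ok, t8_ok, t9_ok, t10_ok, t11_ok, t12_ok, t13_ok, t14_ok, t15_ok, t16_ok, t17_ok, t18_ok, t19_ok, t20_ok, t21_ok, t22_ok, t23_ok, t24_ok, t25_ok, t26_ok, t27_ok, t28_ok, t29_ok, t30_ok, t31_ok, t32_ok, t33_ok, t34_ok, t35_ok, t36_ok, t37_ok, t38_ok, t39_ok, t40_ok, t41_ok, t42_ok, t43_ok, t44_ok, t45_ok, t46_ok, t47_ok, t48_ok, t49_ok, t50_ok, t51_ok, t52_ok, t53_ok, t54_ok, t55_ok, t56_ok, t57_ok, t58_ok, t59_ok, t60_ok, t61_ok, t62_ok, t63_ok, t64_ok, t65_ok, t66_ok, t67_ok, t68_ok, t69_ok, t70_ok, t71_ok, t72_ok, t73_ok, t74_ok, t75_ok, t76_ok, t77_ok, t78_ok, t79_ok, t80_ok, t81_ok, t82_ok, t83_ok, t84_ok, t85_ok, t86_ok, t87_ok, t88_ok, t89_ok, t90_ok, t91_ok, t92_ok, t93_ok, t94_ok, t95_ok, Bool.and_self]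

end Pool.Agent.Helper42.KU
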