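import Pool.Agent.Helper42.KU.Two
import Pool.Agent.Helper42.KU.Tree

/-!
# Project KU: the inequality for all points
-/

set_option autoImplicit false

namespace Pool.Agent.Helper42.KU

open Real

variable {p : ℝ}

theorem FF_negC (p X C S : ℝ) : FF p X (-C) S = FF p X C S := by
  unfold FF
  have e1 : 2 * X + 2 * -C = 2 * X - 2 * C := by ring
  have e2 : 2 * X - 2 * -C = 2 * X + 2 * C := by ring
  rw [e1, e2, neg_sq]
  ring

theorem FF_swap (p X C S : ℝ) : FF p X S C = FF p X C S := by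
  unfold FF
  have e : (4 * X ^ 2 - 4 * S ^ 2) * (4 * X ^ 2 - 4 * C ^ 2) / 2 =
      (4 * X ^ 2 - 4 * C ^ 2) * (4 * X ^ 2 - 4 * S ^ 2) / 2 := by ring
  rw [e]
  ring

theorem FF_negS (p X C S : ℝ) : FF p X C (-S) = FF p X C S := by
  rw [← FF_swap, FF_negC, FF_swap]

private theorem base (hp : 0 < p) (hp1 : p ≤ 3424 / 10000) {X C S : ℝ} (hX : 1 ≤ X)
    (hc : C ^ 2 + S ^ 2 = 1) (hS : 0 ≤ S) (hCS : S ≤ C)
    (hR : (4 * X ^ 2 - 4 * C ^ 2) ^ 2 + (4 * X ^ 2 - 4 * S ^ 2) ^ 2 ≤ 401 / 25) : 0 ≤ FF p X C S := by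
  have hC0 : 0 ≤ C := hS.trans hCS
  have h1 : 0 < 1 + C := by linarith
  set u : ℝ := S / (1 + C) with hu
  have hu1 : u * (1 + C) = S := div_mul_cancel₀ _ h1.ne'
  have hu0 : 0 ≤ u := by positivity
  have hS2 : S ^ 2 = (1 - C) * (1 + C) := by linear_combination hc
  have hu2 : u ^ 2 * (1 + C) = 1 - C := by
    have e : u ^ 2 * (1 + C) * (1 + C) = (1 - C) * (1 + C) := by
      rw [← hS2, ← hu1]
      ring
    exact mul_right_cancel₀ h1.ne' e
  have P : Pt C S u := by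
    refine ⟨?_, ?_, hu0, ?_⟩
    · linear_combination hu2
    · have : u * (1 + u ^ 2) * (1 + C) = 2 * u := by linear_combination u * hu2
      calc S * (1 + u ^ 2) = u * (1 + u ^ 2) * (1 + C) := by rw [← hu1]; ring
        _ = 2 * u := this
    · rw [hu, div_le_one h1]
      linarith
  have hu3 : u ≤ 27 / 64 := by
    have h2 : u ^ 2 + 2 * u ≤ 1 := by
      -- `u (1 + u^2) ... `: `C = (1 - u^2)/(1 + u^2)`, `S = 2 u/(1 + u^2)`, `S ≤ C`
      have h3 := P.c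
      have h4 := P.s
      have h5 : 0 < 1 + u ^ 2 := by positivity
      have h6 : S * (1 + u ^ 2) ≤ C * (1 + u ^ 2) := mul_le_mul_of_nonneg_right hCS h5.le
      linarith
    by_contra hc'
    push Not at hc'
    nlinarith
  have hX1 : X ≤ 71 / 64 := by
    have n1 : (8 * X ^ 2 - 4) ^ 2 ≤ 802 / 25 := by
      have e : 8 * X ^ 2 - 4 = (4 * X ^ 2 - 4 * C ^ 2) + (4 * X ^ 2 - 4 * S ^ 2) := by
        linear_combination (4 : ℝ) * hc
      rw [e]
      nlinarith [sq_nonneg ((4 * X ^ 2 - 4 * C ^ 2) - (4 * X ^ 2 - 4 * S ^ 2))]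
    by_contra hc'
    push Not at hc'
    have n2 : (121 / 100 : ℝ) < X ^ 2 := by nlinarith
    have n3 : (568 / 100 : ℝ) < 8 * X ^ 2 - 4 := by linarith
    nlinarith
  refine tc_sound hp hp1 tr tr_ok P hCS hX hc hR ?_ ?_ ?_ ?_
  · norm_num
    exact hX
  · norm_num
    linarith
  · norm_num
    exact hu0
  · norm_num
    linarith

/-- the inequality -/
theorem two_dim (hp : 0 < p) (hp1 : p ≤ 3424 / 10000) {X C S : ℝ} (hX : 1 ≤ X)
    (hc : C ^ 2 + S ^ 2 = 1)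
    (hR : (4 * X ^ 2 - 4 * C ^ 2) ^ 2 + (4 * X ^ 2 - 4 * S ^ 2) ^ 2 ≤ 401 / 25) : 0 ≤ FF p X C S := by
  have h1 : ∀ C S : ℝ, C ^ 2 + S ^ 2 = 1 → 0 ≤ S → 0 ≤ C →
      (4 * X ^ 2 - 4 * C ^ 2) ^ 2 + (4 * X ^ 2 - 4 * S ^ 2) ^ 2 ≤ 401 / 25 → 0 ≤ FF p X C S := by
    intro C S hc hS hC hR
    rcases le_total S C with h | h
    · exact base hp hp1 hX hc hS h hR
    · rw [← FF_swap]
      exact base hp hp1 hX (by linarith) hC h (by linarith)
  have h2 : ∀ C S : ℝ, C ^ 2 + S ^ 2 = 1 → 0 ≤ S →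
      (4 * X ^ 2 - 4 * C ^ 2) ^ 2 + (4 * X ^ 2 - 4 * S ^ 2) ^ 2 ≤ 401 / 25 → 0 ≤ FF p X C S := by
    intro C S hc hS hR
    rcases le_total 0 C with h | h
    · exact h1 C S hc hS h hR
    · rw [← FF_negC]
      exact h1 (-C) S (by rw [neg_sq]; exact hc) hS (by linarith) (by rw [neg_sq]; exact hR)
  rcases le_total 0 S with h | h
  · exact h2 C S hc h hR
  · rw [← FF_negS]
    exact h2 C (-S) (by rw [neg_sq]; exact hc) (by linarith) (by rw [neg_sq]; exact hR)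

end Pool.Agent.Helper42.KU
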