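import Mathlib

/-!
# Project KU: integer polynomials as lists

Coefficients from the constant term upwards.
-/

set_option autoImplicit false

namespace Pool.Agent.Helper42.KU

/-- the value of a polynomial -/
def ev : List ℤ → ℝ → ℝ
  | [], _ => 0
  | c :: l, x => c + x * ev l x

/-- sum -/
def add : List ℤ → List ℤ → List ℤ
  | [], l => l
  | a :: l, [] => a :: l
  | a :: l, b :: m => (a + b) :: add l m

/-- multiple -/
def smul (k : ℤ) : List ℤ → List ℤ
  | [] => []
  | a :: l => (k * a) :: smul k l

/-- product -/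
def mul : List ℤ → List ℤ → List ℤ
  | [], _ => []
  | a :: l, m => add (smul a m) (0 :: mul l m)

/-- `(Q, P)` with `P = (N (1 + x))^(length l)` and `Q (N (1 + x)) = P l(x / (N (1 + x)))` -/
def hom (N : ℤ) : List ℤ → List ℤ × List ℤ
  | [] => ([], [1])
  | c :: l =>
    match hom N l with
    | (Q, P) => (add (smul c P) (0 :: Q), smul N (add P (0 :: P)))

/-- all coefficients are nonnegative -/
def nn : List ℤ → Bool
  | [] => true
  | a :: l => (decide (0 ≤ a)) && nn l

theorem ev_add (l m : List ℤ) (x : ℝ) : ev (add l m) x = ev l x + ev m x := by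
  induction l generalizing m with
  | nil => simp [add, ev]
  | cons a l ih =>
    cases m with
    | nil => simp [add, ev]
    | cons b m =>
      simp only [add, ev, ih]
      push_cast
      ring

theorem ev_smul (k : ℤ) (l : List ℤ) (x : ℝ) : ev (smul k l) x = k * ev l x := by
  induction l with
  | nil => simp [smul, ev]
  | cons a l ih =>
    simp only [smul, ev, ih]
    push_cast
    ring

theorem ev_mul (l m : List ℤ) (x : ℝ) : ev (mul l m) x = ev l x * ev m x := by
  induction l with
  | nil => simp [mul, ev]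
  | cons a l ih =>
    simp only [mul, ev, ev_add, ev_smul, ih]
    push_cast
    ring

theorem ev_nonneg (l : List ℤ) (h : nn l = true) {x : ℝ} (hx : 0 ≤ x) : 0 ≤ ev l x := by
  induction l with
  | nil => simp [ev]
  | cons a l ih =>
    simp only [nn, Bool.and_eq_true, decide_eq_true_eq] at h
    have h1 := ih h.2
    have h2 : (0 : ℝ) ≤ a := by exact_mod_cast h.1
    simp only [ev]
    positivity

theorem hom_spec (N : ℤ) (l : List ℤ) {x : ℝ} (hy : (N : ℝ) * (1 + x) ≠ 0) :
    ev (hom N l).2 x = (N * (1 + x)) ^ l.length ∧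
      ev (hom N l).1 x * (N * (1 + x)) = (N * (1 + x)) ^ l.length * ev l (x / (N * (1 + x))) := by
  induction l with
  | nil => simp [hom, ev]
  | cons c l ih =>
    obtain ⟨h1, h2⟩ := ih
    constructor
    · simp only [hom, ev_smul, ev_add, ev, h1, List.length_cons]
      push_cast
      ring
    · simp only [hom, ev_smul, ev_add, ev, h1, List.length_cons]
      push_cast
      have h3 : (x / ((N : ℝ) * (1 + x))) * (N * (1 + x)) = x := div_mul_cancel₀ _ hy
      have h4 : ((N : ℝ) * (1 + x)) ^ (l.length + 1) *
          (c + x / (N * (1 + x)) * ev l (x / (N * (1 + x)))) =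
          c * ((N : ℝ) * (1 + x)) ^ l.length * (N * (1 + x)) +
            x / ((N : ℝ) * (1 + x)) * (N * (1 + x)) *
              ((N * (1 + x)) ^ l.length * ev l (x / (N * (1 + x)))) := by
        ring
      rw [h4, h3, ← h2]
      ring

/-- a polynomial with `nn (hom N l).1` is nonnegative on `[0, 1/N)` -/
theorem hom_nonneg {N : ℤ} (hN : 0 < N) {l : List ℤ} (h : nn (hom N l).1 = true) {s : ℝ}
    (h0 : 0 ≤ s) (h1 : s * N < 1) : 0 ≤ ev l s := by
  have hN' : (0 : ℝ) < N := by exact_mod_cast hN
  set x : ℝ := s * N / (1 - s * N) with hx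
  have h2 : 0 < 1 - s * N := by linarith
  have hx0 : 0 ≤ x := by positivity
  have hy : (0 : ℝ) < N * (1 + x) := by positivity
  have hs : x / (N * (1 + x)) = s := by
    rw [div_eq_iff hy.ne', hx]
    field_simp
    ring
  have h3 := (hom_spec N l hy.ne').2
  rw [hs] at h3
  have h4 : 0 ≤ ev (hom N l).1 x * (N * (1 + x)) := mul_nonneg (ev_nonneg _ h hx0) hy.le
  rw [h3] at h4
  exact nonneg_of_mul_nonneg_right h4 (pow_pos hy _)

end Pool.Agent.Helper42.KU
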