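import Pool.Agent.Helper42.KU.Grow

/-!
# Project KU: the integral means
-/

set_option autoImplicit false

namespace Pool.Agent.Helper42.KU

open Complex Metric Set Pool.Agent.Helper42.LB Pool.Agent.Helper42.KN

private theorem fin_pow {c b p : ℝ} (hc : 0 < c) (hp : 0 < p) {I : ℝ → ℝ}
    (h : ∀ r : ℝ, 0 < r → r < 1 → c * (1 - r) ^ (-b) ≤ I r) :
    ∀ r : ℝ, 0 < r → r < 1 → ((2 * Real.pi)⁻¹ * c) ^ (1 / p) * (1 - r) ^ (-(b / p)) ≤
      ((2 * Real.pi)⁻¹ * I r) ^ (1 / p) := by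
  intro r hr hr1
  have h1 : 0 < 1 - r := by linarith
  have hpi : 0 < (2 * Real.pi)⁻¹ := by positivity
  have e : ((2 * Real.pi)⁻¹ * c) ^ (1 / p) * (1 - r) ^ (-(b / p)) =
      ((2 * Real.pi)⁻¹ * (c * (1 - r) ^ (-b))) ^ (1 / p) := by
    rw [← mul_assoc, Real.mul_rpow (x := (2 * Real.pi)⁻¹ * c) (y := (1 - r) ^ (-b))
      (by positivity) (by positivity), ← Real.rpow_mul h1.le]
    congr 2
    field_simp
  rw [e]
  exact Real.rpow_le_rpow (by positivity) (mul_le_mul_of_nonneg_left (h r hr hr1) hpi.le)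
    (by positivity)

/-- one univalent function for all exponents `0 < p ≤ 0.3424` -/
theorem main_fin : ∃ f : ℂ → ℂ, DifferentiableOn ℂ f (ball 0 1) ∧ InjOn f (ball 0 1) ∧
    ∀ p : ℝ, 0 < p → p ≤ 3424 / 10000 → ∃ c : ℝ, 0 < c ∧
      ∀ r : ℝ, 0 < r → r < 1 → c * (1 - r) ^ (-(23 / 100 * p)) ≤ ((2 * Real.pi)⁻¹ *
        ∫ θ in (0 : ℝ)..2 * Real.pi, ‖deriv f (r * exp (θ * I))‖ ^ p) ^ (1 / p) := by
  obtain ⟨B, S⟩ := exists_sl
  refine ⟨fn B, fn_diff1 S, fn_inj1 S, fun p hp hp1 => ?_⟩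
  obtain ⟨K, hK, HK⟩ := growth1 hp hp1 S
  have hI0 : ∀ r : ℝ, 0 < r → r < 1 → K * (1 - r) ^ (-(23 / 100 * p ^ 2)) ≤
      ∫ θ in (0 : ℝ)..2 * Real.pi, ‖deriv (fn B) (r * exp (θ * I))‖ ^ p := HK
  have h := fin_pow hK hp hI0
  have e : 23 / 100 * p ^ 2 / p = 23 / 100 * p := by
    field_simp
  rw [e] at h
  exact ⟨_, by positivity, h⟩

end Pool.Agent.Helper42.KU
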