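import Pool.Agent.Helper42.KU.Reg
import Pool.Agent.Helper42.LB.Growth

/-!
# Project KU: growth of the integral means
-/

set_option autoImplicit false

namespace Pool.Agent.Helper42.KU

open Complex Metric Set Pool.Agent.Helper42.LB Pool.Agent.Helper42.KN

variable {B : ℂ → ℂ} {p : ℝ}

/-- `∫ u (r^N exp (i N θ)) dθ`, periodicity (the proof of `ci_pow` in `LB/Cir.lean`) -/
theorem ci_pow1 {u : ℂ → ℝ} {r : ℝ} {N : ℕ} (hN : 0 < N)
    (hu : Continuous fun θ : ℝ => u (pt (r ^ N) θ)) : ci (fun z => u (z ^ N)) r = ci u (r ^ N) := by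
  unfold ci
  have hN' : (N : ℝ) ≠ 0 := by exact_mod_cast hN.ne'
  have h2 : ∀ θ : ℝ, u (pt r θ ^ N) = (fun t => u (pt (r ^ N) t)) ((N : ℝ) * θ) := by
    intro θ
    rw [pt_pow]
  have h3 : Function.Periodic (fun t => u (pt (r ^ N) t)) (2 * Real.pi) := by
    intro t
    show u (pt (r ^ N) (t + 2 * Real.pi)) = u (pt (r ^ N) t)
    rw [pt_periodic (r ^ N) t]
  have h5 := h3.intervalIntegral_add_zsmul_eq (N : ℤ) 0 (fun a b => hu.intervalIntegrable a b)
  have h6 : (0 : ℝ) + (N : ℤ) • (2 * Real.pi) = N * (2 * Real.pi) := by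
    rw [zero_add, zsmul_eq_mul, Int.cast_natCast]
  rw [h6] at h5
  simp only [h2]
  rw [intervalIntegral.integral_comp_mul_left (fun t => u (pt (r ^ N) t)) hN', mul_zero, h5,
    zsmul_eq_mul, Int.cast_natCast, zero_add, smul_eq_mul, inv_mul_cancel_left₀ hN']

private theorem g1_cont {v : ℂ → ℝ} {r : ℝ} (h0 : 0 < r) (h1 : r < 1)
    (hv : ContinuousOn v (ball 0 1 \ {0})) : Continuous fun θ : ℝ => v (pt r θ) := by
  have h2 : Continuous (fun θ : ℝ => pt r θ) :=
    pt_cont.comp (by fun_prop : Continuous fun θ : ℝ => (r, θ))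
  refine hv.comp_continuous h2 fun θ => ⟨?_, ?_⟩
  · rw [mem_ball_zero_iff, norm_pt h0.le]
    exact h1
  · intro h
    rw [mem_singleton_iff] at h
    have h3 := norm_pt h0.le θ
    rw [h, norm_zero] at h3
    exact h0.ne h3

private theorem g1_add {a b c d : ℝ → ℝ} (ha : Continuous a) (hb : Continuous b)
    (hc : Continuous c) (hd : Continuous d) :
    ∫ θ in (0 : ℝ)..2 * Real.pi, (a θ + b θ + c θ + d θ) / 4 =
      ((∫ θ in (0 : ℝ)..2 * Real.pi, a θ) + (∫ θ in (0 : ℝ)..2 * Real.pi, b θ) +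
        (∫ θ in (0 : ℝ)..2 * Real.pi, c θ) + (∫ θ in (0 : ℝ)..2 * Real.pi, d θ)) / 4 := by
  have h1 : ∫ θ in (0 : ℝ)..2 * Real.pi, a θ + b θ + c θ + d θ =
      (∫ θ in (0 : ℝ)..2 * Real.pi, a θ + b θ + c θ) + ∫ θ in (0 : ℝ)..2 * Real.pi, d θ :=
    intervalIntegral.integral_add (((ha.add hb).add hc).intervalIntegrable _ _)
      (hd.intervalIntegrable _ _)
  have h2 : ∫ θ in (0 : ℝ)..2 * Real.pi, a θ + b θ + c θ =
      (∫ θ in (0 : ℝ)..2 * Real.pi, a θ + b θ) + ∫ θ in (0 : ℝ)..2 * Real.pi, c θ :=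
    intervalIntegral.integral_add ((ha.add hb).intervalIntegrable _ _) (hc.intervalIntegrable _ _)
  have h3 : ∫ θ in (0 : ℝ)..2 * Real.pi, a θ + b θ =
      (∫ θ in (0 : ℝ)..2 * Real.pi, a θ) + ∫ θ in (0 : ℝ)..2 * Real.pi, b θ :=
    intervalIntegral.integral_add (ha.intervalIntegrable _ _) (hb.intervalIntegrable _ _)
  rw [intervalIntegral.integral_div, h1, h2, h3]

/-- By `ci_rot` (with `pt 1 (π/2) = I` etc.) the right side is the integral of `mean4 u z * w (z^4)` over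
the circle of radius `r`, and the left side is the integral of `g (z^4) w (z^4)` (`ci_pow1`). -/
theorem circ_transfer {u g w : ℂ → ℝ} {r : ℝ} (h0 : 0 < r) (h1 : r < 1)
    (hu : ContinuousOn u (ball 0 1 \ {0})) (hg : ContinuousOn g (ball 0 1 \ {0}))
    (hw : ContinuousOn w (ball 0 1 \ {0})) (hw0 : ∀ z, 0 ≤ w z)
    (H : ∀ z : ℂ, ‖z‖ = r → g (z ^ 4) ≤ mean4 u z) :
    ci (fun z => g z * w z) (r ^ 4) ≤ ci (fun z => u z * w (z ^ 4)) r := by
  have h40 : 0 < r ^ 4 := by positivity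
  have h41 : r ^ 4 < 1 := pow_lt_one₀ h0.le h1 (by norm_num)
  have cg := g1_cont h40 h41 hg
  have cw := g1_cont h40 h41 hw
  -- the left side
  have e1 := ci_pow1 (u := fun z => g z * w z) (r := r) (N := 4) (by norm_num) (cg.mul cw)
  rw [← e1]
  -- the rotations
  have hI : ∀ z : ℂ, (I * z) ^ 4 = z ^ 4 := fun z => by rw [mul_pow, I_pow_four, one_mul]
  have hN : ∀ z : ℂ, (-z) ^ 4 = z ^ 4 := fun z => by ring
  have p1 : pt 1 (Real.pi / 2) = I := by
    unfold pt
    push_cast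
    rw [exp_pi_div_two_mul_I]
    simp
  have p2 : pt 1 Real.pi = -1 := by
    unfold pt
    rw [exp_pi_mul_I]
    simp
  have p3 : pt 1 (Real.pi / 2 + Real.pi) = -I := by
    have h := pt_mul 1 1 (Real.pi / 2) Real.pi
    rw [p1, p2, one_mul] at h
    rw [← h]
    ring
  have r1 : ci (fun z => u (I * z) * w (z ^ 4)) r = ci (fun z => u z * w (z ^ 4)) r := by
    rw [← ci_rot (fun z => u z * w (z ^ 4)) r (Real.pi / 2), p1]
    simp only [hI]
  have r2 : ci (fun z => u (-z) * w (z ^ 4)) r = ci (fun z => u z * w (z ^ 4)) r := by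
    rw [← ci_rot (fun z => u z * w (z ^ 4)) r Real.pi, p2]
    simp only [neg_one_mul, hN]
  have r3 : ci (fun z => u (-(I * z)) * w (z ^ 4)) r = ci (fun z => u z * w (z ^ 4)) r := by
    rw [← ci_rot (fun z => u z * w (z ^ 4)) r (Real.pi / 2 + Real.pi), p3]
    simp only [neg_mul, hN, hI]
  -- continuity
  have cw4 : Continuous fun θ : ℝ => w (pt r θ ^ 4) := by
    simp only [pt_pow]
    exact cw.comp (by fun_prop : Continuous fun θ : ℝ => ((4 : ℕ) : ℝ) * θ)
  have cg4 : Continuous fun θ : ℝ => g (pt r θ ^ 4) := by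
    simp only [pt_pow]
    exact cg.comp (by fun_prop : Continuous fun θ : ℝ => ((4 : ℕ) : ℝ) * θ)
  have cu := g1_cont h0 h1 hu
  have cuI : Continuous fun θ : ℝ => u (I * pt r θ) := by
    have h : ∀ θ : ℝ, I * pt r θ = pt r (Real.pi / 2 + θ) := fun θ => by
      rw [← p1, pt_mul, one_mul]
    simp only [h]
    exact cu.comp (by fun_prop : Continuous fun θ : ℝ => Real.pi / 2 + θ)
  have cuN : Continuous fun θ : ℝ => u (-pt r θ) := by
    have h : ∀ θ : ℝ, -pt r θ = pt r (Real.pi + θ) := fun θ => by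
      rw [← neg_one_mul, ← p2, pt_mul, one_mul]
    simp only [h]
    exact cu.comp (by fun_prop : Continuous fun θ : ℝ => Real.pi + θ)
  have cuM : Continuous fun θ : ℝ => u (-(I * pt r θ)) := by
    have h : ∀ θ : ℝ, -(I * pt r θ) = pt r (Real.pi / 2 + Real.pi + θ) := fun θ => by
      rw [← neg_mul, ← p3, pt_mul, one_mul]
    simp only [h]
    exact cu.comp (by fun_prop : Continuous fun θ : ℝ => Real.pi / 2 + Real.pi + θ)
  -- the right side is the integral of the mean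
  have e2 : ci (fun z => mean4 u z * w (z ^ 4)) r = ci (fun z => u z * w (z ^ 4)) r := by
    have h4 : ci (fun z => mean4 u z * w (z ^ 4)) r =
        (ci (fun z => u z * w (z ^ 4)) r + ci (fun z => u (I * z) * w (z ^ 4)) r +
          ci (fun z => u (-z) * w (z ^ 4)) r + ci (fun z => u (-(I * z)) * w (z ^ 4)) r) / 4 := by
      unfold ci
      refine Eq.trans ?_ (g1_add (cu.mul cw4) (cuI.mul cw4) (cuN.mul cw4) (cuM.mul cw4))
      refine intervalIntegral.integral_congr fun θ _ => ?_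
      show mean4 u (pt r θ) * w (pt r θ ^ 4) = _
      unfold mean4
      ring
    rw [h4, r1, r2, r3]
    ring
  rw [← e2]
  unfold ci
  have cm : Continuous fun θ : ℝ => mean4 u (pt r θ) * w (pt r θ ^ 4) := by
    unfold mean4
    exact ((((cu.add cuI).add cuN).add cuM).div_const 4).mul cw4
  refine intervalIntegral.integral_mono Real.two_pi_pos.le
    ((cg4.mul cw4).intervalIntegrable _ _) (cm.intervalIntegrable _ _) fun θ => ?_
  exact mul_le_mul_of_nonneg_right (H _ (norm_pt h0.le θ)) (hw0 _)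

theorem hh_fn_cont (p : ℝ) (S : Sl B) : ContinuousOn (fun z => hh p (fn B z)) (ball 0 1 \ {0}) := by
  have hf : ContinuousOn (fn B) (ball 0 1 \ {0}) :=
    (fn_diff1 S).continuousOn.mono sdiff_subset
  have hne : ∀ z ∈ ball (0 : ℂ) 1 \ {0}, ‖-fn B z‖ ≠ 0 := fun z hz => by
    rw [norm_neg, norm_ne_zero_iff]
    exact fn_ne1 hz.2
  have hN : ContinuousOn (fun z => NN (-fn B z)) (ball 0 1 \ {0}) := by
    unfold NN
    exact ((continuousOn_const.add hf.neg).norm.pow 2).div hf.neg.norm hne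
  have hN0 : ∀ z ∈ ball (0 : ℂ) 1 \ {0}, NN (-fn B z) ≠ 0 := fun z hz => by
    unfold NN
    refine div_ne_zero (pow_ne_zero 2 ?_) (hne z hz)
    rw [norm_ne_zero_iff]
    intro h
    have h1 : fn B z = 1 := by linear_combination -h
    have h2 := fn_mem1 S hz.1
    rw [h1, mem_ball_zero_iff, norm_one] at h2
    exact lt_irrefl _ h2
  have hJ : ContinuousOn (fun z => JJ (fn B z)) (ball 0 1 \ {0}) := by
    unfold JJ
    exact (hf.add (hf.inv₀ fun z hz => fn_ne1 hz.2)).norm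
  unfold hh
  exact (hN.rpow_const fun z hz => Or.inl (hN0 z hz)).mul
    ((continuousOn_const.add (continuousOn_const.mul (hN.rpow_const fun z hz =>
      Or.inl (hN0 z hz)))).add (continuousOn_const.mul hJ))

private theorem eSS_cont (p : ℝ) (S : Sl B) (n : ℕ) :
    ContinuousOn (fun z => Real.exp (p * SS B n z)) (ball 0 1 \ {0}) :=
  Real.continuous_exp.comp_continuousOn
    (continuousOn_const.mul ((SS_cont1 S n).mono Set.sdiff_subset))

private theorem eps_cont (p : ℝ) (S : Sl B) :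
    ContinuousOn (fun z => Real.exp (p * ps B z)) (ball 0 1 \ {0}) :=
  Real.continuous_exp.comp_continuousOn
    (continuousOn_const.mul ((ps_cont1 S).mono Set.sdiff_subset))

private theorem pt_cont_d {u : ℂ → ℝ} {r : ℝ} (h0 : 0 < r) (h1 : r < 1)
    (hu : ContinuousOn u (ball 0 1 \ {0})) : Continuous (fun θ : ℝ => u (pt r θ)) := by
  have h2 : Continuous (fun θ : ℝ => pt r θ) :=
    pt_cont.comp (by fun_prop : Continuous fun θ : ℝ => (r, θ))
  refine hu.comp_continuous h2 (fun θ => ?_)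
  have h3 := norm_pt h0.le θ
  refine ⟨by rw [mem_ball_zero_iff, h3]; exact h1, fun h4 => ?_⟩
  rw [mem_singleton_iff] at h4
  rw [h4, norm_zero] at h3
  exact h0.ne h3

theorem EE_pos (p : ℝ) : 0 < EE p := Real.exp_pos _

theorem EE_le_three (hp : 0 < p) (hp1 : p ≤ 3424 / 10000) : EE p ≤ 3 := by
  have h1 := sg_pos hp
  have h2 := sg_lt hp1
  have h3 : 1699056 * sg p ^ 2 ≤ 1 := by nlinarith
  unfold EE
  refine (Real.exp_le_exp.2 h3).trans ?_
  have := Real.exp_one_lt_d9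
  linarith

/-- Induction on `n` for all `r`: `circ_transfer` with `u = exp (p ps) hh (fn B)`,
`g = EE hh (fn B)`, `w = exp (p SS n)` (`SS_succ1`, `transfer_fn`); the radii `r^(4^j)`, `j ≤ n`, are
`≥ r₁`. At the end `hh (fn B z) ≥ 1/2` (`hh_lower`). -/
theorem iter1 (hp : 0 < p) (hp1 : p ≤ 3424 / 10000) (S : Sl B) {r₁ : ℝ}
    (hr : ∀ z ∈ ball (0 : ℂ) 1, r₁ ≤ ‖z‖ → JJ (fn B z) ≤ 201 / 100) (n : ℕ) {r : ℝ} (h0 : 0 < r)
    (h2 : r < 1) (h : r₁ ≤ r ^ 4 ^ n) : EE p ^ n * Real.pi ≤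
      ci (fun z => Real.exp (p * SS B n z) * hh p (fn B z)) r := by
  induction n generalizing r with
  | zero =>
    have hc : Continuous (fun θ : ℝ => Real.exp (p * SS B 0 (pt r θ)) * hh p (fn B (pt r θ))) :=
      pt_cont_d h0 h2 ((eSS_cont p S 0).mul (hh_fn_cont p S))
    have h3 : (∫ _ in (0 : ℝ)..2 * Real.pi, (1 / 2 : ℝ)) ≤
        ci (fun z => Real.exp (p * SS B 0 z) * hh p (fn B z)) r := by
      unfold ci
      refine intervalIntegral.integral_mono Real.two_pi_pos.le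
        (continuous_const.intervalIntegrable _ _) (hc.intervalIntegrable _ _) (fun θ => ?_)
      have h4 : pt r θ ∈ ball (0 : ℂ) 1 := by
        rw [mem_ball_zero_iff, norm_pt h0.le]
        exact h2
      have h5 : pt r θ ≠ 0 := by
        intro h6
        have h7 := norm_pt h0.le θ
        rw [h6, norm_zero] at h7
        exact h0.ne h7
      have h6 : JJ (fn B (pt r θ)) ≤ 201 / 100 := by
        refine hr _ h4 ?_
        rw [norm_pt h0.le]
        simpa using h
      have h7 := hh_lower hp hp1 (fn_mem1 S h4) (fn_ne1 (B := B) h5) h6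
      have h8 : SS B 0 (pt r θ) = 0 := by simp [SS]
      show (1 / 2 : ℝ) ≤ Real.exp (p * SS B 0 (pt r θ)) * hh p (fn B (pt r θ))
      rw [h8, mul_zero, Real.exp_zero, one_mul]
      exact h7
    rw [intervalIntegral.integral_const, sub_zero, smul_eq_mul] at h3
    rw [pow_zero, one_mul]
    linarith
  | succ n ih =>
    have h3 : r ^ 4 ^ (n + 1) = (r ^ 4) ^ 4 ^ n := by
      rw [← pow_mul, pow_succ, mul_comm]
    have h40 : 0 < r ^ 4 := pow_pos h0 4
    have h41 : r ^ 4 < 1 := pow_lt_one₀ h0.le h2 (by norm_num)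
    have h5 : r₁ ≤ r ^ 4 := by
      have h51 : 4 ^ 1 ≤ 4 ^ (n + 1) := Nat.pow_le_pow_right (by norm_num) (by omega)
      have h52 := pow_le_pow_of_le_one h0.le h2.le h51
      rw [pow_one] at h52
      exact h.trans h52
    have h6 := ih h40 h41 (h3 ▸ h)
    have h7 : ci (fun z => (EE p * hh p (fn B z)) * Real.exp (p * SS B n z)) (r ^ 4) ≤
        ci (fun z => (Real.exp (p * ps B z) * hh p (fn B z)) * Real.exp (p * SS B n (z ^ 4))) r := by
      refine circ_transfer (u := fun z => Real.exp (p * ps B z) * hh p (fn B z))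
        (g := fun z => EE p * hh p (fn B z)) (w := fun z => Real.exp (p * SS B n z))
        h0 h2 ((eps_cont p S).mul (hh_fn_cont p S)) (continuousOn_const.mul (hh_fn_cont p S))
        (eSS_cont p S n) (fun z => (Real.exp_pos _).le) (fun z hz => ?_)
      have hzb : z ∈ ball (0 : ℂ) 1 := by
        rw [mem_ball_zero_iff, hz]
        exact h2
      have hz0 : z ≠ 0 := by
        rw [← norm_pos_iff, hz]
        exact h0
      have hz4 : z ^ 4 ∈ ball (0 : ℂ) 1 := by
        rw [mem_ball_zero_iff, norm_pow, hz]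
        exact h41
      exact transfer_fn hp hp1 S hzb hz0 (hr _ hz4 (by rw [norm_pow, hz]; exact h5))
    have h8 : ci (fun z => (EE p * hh p (fn B z)) * Real.exp (p * SS B n z)) (r ^ 4) =
        EE p * ci (fun z => Real.exp (p * SS B n z) * hh p (fn B z)) (r ^ 4) := by
      unfold ci
      rw [← intervalIntegral.integral_const_mul]
      congr 1
      funext θ
      ring
    have h9 : ci (fun z => Real.exp (p * SS B (n + 1) z) * hh p (fn B z)) r =
        ci (fun z => (Real.exp (p * ps B z) * hh p (fn B z)) * Real.exp (p * SS B n (z ^ 4))) r := by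
      congr 1
      funext z
      rw [SS_succ1, mul_add, Real.exp_add]
      ring
    rw [h9]
    refine le_trans ?_ h7
    rw [h8, pow_succ, mul_comm (EE p ^ n), mul_assoc]
    exact mul_le_mul_of_nonneg_left h6 (EE_pos p).le

/-- `circ_transfer` with `u = exp (p ps)`, `g = c hh (fn B)`, `w = exp (p SS n)` (`start_fn`), then
`iter1`. -/
theorem iter2 (hp : 0 < p) (hp1 : p ≤ 3424 / 10000) (S : Sl B) {r₁ : ℝ}
    (hr : ∀ z ∈ ball (0 : ℂ) 1, r₁ ≤ ‖z‖ → JJ (fn B z) ≤ 201 / 100) :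
    ∃ c : ℝ, 0 < c ∧ ∀ (n : ℕ) (r : ℝ), 0 < r → r < 1 → (0 < n → r₁ ≤ r ^ 4 ^ n) →
      c * EE p ^ n ≤ ci (fun z => Real.exp (p * SS B n z)) r := by
  obtain ⟨c, hc, H⟩ := start_fn hp hp1 S
  have hE := EE_pos p
  have hE3 := EE_le_three hp hp1
  refine ⟨min 1 c, lt_min one_pos hc, fun n r h0 h2 hn => ?_⟩
  have hpi := Real.pi_gt_three
  rcases n with _ | n
  · have h3 : ci (fun z => Real.exp (p * SS B 0 z)) r = 2 * Real.pi * 1 := by
      rw [← ci_const (r := r)]
      congr 1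
      funext z
      simp [SS]
    rw [h3, pow_zero, mul_one, mul_one]
    have := min_le_left (1 : ℝ) c
    linarith
  · have h := hn (Nat.succ_pos n)
    have h3 : r ^ 4 ^ (n + 1) = (r ^ 4) ^ 4 ^ n := by
      rw [← pow_mul, pow_succ, mul_comm]
    have h40 : 0 < r ^ 4 := pow_pos h0 4
    have h41 : r ^ 4 < 1 := pow_lt_one₀ h0.le h2 (by norm_num)
    rw [h3] at h
    have h5 : r₁ ≤ r ^ 4 := by
      refine h.trans ?_
      calc (r ^ 4) ^ 4 ^ n ≤ (r ^ 4) ^ 1 :=
            pow_le_pow_of_le_one h40.le h41.le (Nat.one_le_pow _ _ (by norm_num))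
        _ = r ^ 4 := pow_one _
    have h6 := iter1 hp hp1 S hr n h40 h41 h
    have h7 : ci (fun z => (c * hh p (fn B z)) * Real.exp (p * SS B n z)) (r ^ 4) ≤
        ci (fun z => Real.exp (p * ps B z) * Real.exp (p * SS B n (z ^ 4))) r := by
      refine circ_transfer (u := fun z => Real.exp (p * ps B z))
        (g := fun z => c * hh p (fn B z)) (w := fun z => Real.exp (p * SS B n z))
        h0 h2 (eps_cont p S) (continuousOn_const.mul (hh_fn_cont p S))
        (eSS_cont p S n) (fun z => (Real.exp_pos _).le) (fun z hz => ?_)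
      have hzb : z ∈ ball (0 : ℂ) 1 := by
        rw [mem_ball_zero_iff, hz]
        exact h2
      have hz0 : z ≠ 0 := by
        rw [← norm_pos_iff, hz]
        exact h0
      have hz4 : z ^ 4 ∈ ball (0 : ℂ) 1 := by
        rw [mem_ball_zero_iff, norm_pow, hz]
        exact h41
      exact H z hzb hz0 (hr _ hz4 (by rw [norm_pow, hz]; exact h5))
    have h8 : ci (fun z => (c * hh p (fn B z)) * Real.exp (p * SS B n z)) (r ^ 4) =
        c * ci (fun z => Real.exp (p * SS B n z) * hh p (fn B z)) (r ^ 4) := by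
      unfold ci
      rw [← intervalIntegral.integral_const_mul]
      congr 1
      funext θ
      ring
    have h9 : ci (fun z => Real.exp (p * SS B (n + 1) z)) r =
        ci (fun z => Real.exp (p * ps B z) * Real.exp (p * SS B n (z ^ 4))) r := by
      congr 1
      funext z
      rw [SS_succ1, mul_add, Real.exp_add]
    rw [h9]
    refine le_trans ?_ h7
    rw [h8]
    have hm := min_le_right (1 : ℝ) c
    have hpn : (0 : ℝ) < EE p ^ n := by positivity
    calc min 1 c * EE p ^ (n + 1) ≤ c * EE p ^ (n + 1) :=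
          mul_le_mul_of_nonneg_right hm (by positivity)
      _ = c * (EE p ^ n * EE p) := by rw [pow_succ]
      _ ≤ c * (EE p ^ n * Real.pi) := by
          refine mul_le_mul_of_nonneg_left (mul_le_mul_of_nonneg_left ?_ hpn.le) hc.le
          linarith
      _ ≤ _ := mul_le_mul_of_nonneg_left h6 hc.le

/-- as `mean_lower` in `LB/Growth.lean` (`Sl.bd`, `deriv_fn1`, `QQ_norm1`, `QQ_lower1`) -/
theorem mean_lower1 (hpp : 0 < p) (S : Sl B) {r₂ : ℝ} (h2 : r₂ < 1) :
    ∃ b : ℝ, 0 < b ∧ ∀ k : ℕ, ∀ r, 0 < r → r < 1 → r ^ 4 ^ k ≤ r₂ →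
      b * ci (fun z => Real.exp (p * SS B k z)) (r ^ 4) ≤
        ∫ θ in (0 : ℝ)..2 * Real.pi, ‖deriv (fn B) (pt r θ)‖ ^ p := by
  obtain ⟨q, hq, hQ⟩ := QQ_lower1 S h2
  obtain ⟨C, _, hC⟩ := S.bd
  have hb : 0 < Real.exp (-C) * q := mul_pos (Real.exp_pos _) hq
  refine ⟨(Real.exp (-C) * q) ^ p, Real.rpow_pos_of_pos hb _, fun k r hr hr1 hrk => ?_⟩
  have hpc : ∀ ρ : ℝ, Continuous (fun θ : ℝ => pt ρ θ) := fun ρ => by
    have := pt_cont.comp (continuous_const.prodMk continuous_id : Continuous fun θ : ℝ => (ρ, θ))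
    exact this
  have hball : ∀ θ : ℝ, pt r θ ∈ ball (0 : ℂ) 1 := fun θ => by
    rw [mem_ball_zero_iff, norm_pt hr.le]
    exact hr1
  have hr4 : r ^ 4 < 1 := pow_lt_one₀ hr.le hr1 (by norm_num)
  have hball4 : ∀ θ : ℝ, pt (r ^ 4) θ ∈ ball (0 : ℂ) 1 := fun θ => by
    rw [mem_ball_zero_iff, norm_pt (by positivity)]
    exact hr4
  have hball4' : ∀ θ : ℝ, pt r θ ^ 4 ∈ ball (0 : ℂ) 1 := fun θ => by
    rw [mem_ball_zero_iff, norm_pow, norm_pt hr.le]
    exact hr4
  have hu : ContinuousOn (fun z => Real.exp (p * SS B k z)) (ball 0 1) :=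
    Real.continuous_exp.comp_continuousOn (continuousOn_const.mul (SS_cont1 S k))
  have h3 := ci_pow1 (u := fun z => Real.exp (p * SS B k z)) (r := r) (N := 4) (by norm_num)
    (hu.comp_continuous (hpc (r ^ 4)) hball4)
  rw [← h3]
  have h5 : (Real.exp (-C) * q) ^ p * ci (fun z => Real.exp (p * SS B k (z ^ 4))) r =
      ∫ θ in (0 : ℝ)..2 * Real.pi, (Real.exp (-C) * q) ^ p *
        Real.exp (p * SS B k (pt r θ ^ 4)) := by
    rw [intervalIntegral.integral_const_mul]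
    rfl
  rw [h5]
  have hc1 : Continuous (fun θ : ℝ => (Real.exp (-C) * q) ^ p *
      Real.exp (p * SS B k (pt r θ ^ 4))) :=
    continuous_const.mul (hu.comp_continuous ((hpc r).pow 4) hball4')
  have hd : ContinuousOn (deriv (fn B)) (ball 0 1) :=
    ((fn_diff1 S).deriv isOpen_ball).continuousOn
  have hc2 : Continuous (fun θ : ℝ => ‖deriv (fn B) (pt r θ)‖ ^ p) := by
    have h6 : Continuous (fun θ : ℝ => deriv (fn B) (pt r θ)) := hd.comp_continuous (hpc r) hball
    exact h6.norm.rpow_const fun θ => Or.inr hpp.le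
  refine intervalIntegral.integral_mono_on (by positivity) (hc1.intervalIntegrable _ _)
    (hc2.intervalIntegrable _ _) fun θ _ => ?_
  have hz := hball θ
  have h6 : ‖deriv (fn B) (pt r θ)‖ =
      Real.exp (B (pt r θ)).re * (Real.exp (SS B k (pt r θ ^ 4)) * ‖QQ B (pt r θ ^ 4 ^ k)‖) := by
    rw [deriv_fn1 S hz, norm_mul, Complex.norm_exp, QQ_norm1 S k hz]
  have h7 : -C ≤ (B (pt r θ)).re := by
    have h8 := abs_re_le_norm (B (pt r θ))
    have h9 := hC _ hz
    have h10 := neg_abs_le (B (pt r θ)).re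
    linarith
  have h8 : q ≤ ‖QQ B (pt r θ ^ 4 ^ k)‖ := by
    apply hQ
    rw [norm_pow, norm_pt hr.le]
    exact hrk
  have h9 : Real.exp (-C) * q * Real.exp (SS B k (pt r θ ^ 4)) ≤ ‖deriv (fn B) (pt r θ)‖ := by
    rw [h6]
    calc Real.exp (-C) * q * Real.exp (SS B k (pt r θ ^ 4))
        = Real.exp (-C) * (Real.exp (SS B k (pt r θ ^ 4)) * q) := by ring
      _ ≤ Real.exp (B (pt r θ)).re *
          (Real.exp (SS B k (pt r θ ^ 4)) * ‖QQ B (pt r θ ^ 4 ^ k)‖) :=
        mul_le_mul (Real.exp_le_exp.2 h7) (mul_le_mul_of_nonneg_left h8 (Real.exp_pos _).le)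
          (by positivity) (Real.exp_pos _).le
  calc (Real.exp (-C) * q) ^ p * Real.exp (p * SS B k (pt r θ ^ 4))
      = (Real.exp (-C) * q * Real.exp (SS B k (pt r θ ^ 4))) ^ p := by
        rw [Real.mul_rpow hb.le (Real.exp_pos _).le, ← Real.exp_mul, mul_comm p]
    _ ≤ ‖deriv (fn B) (pt r θ)‖ ^ p :=
        Real.rpow_le_rpow (mul_pos hb (Real.exp_pos _)).le h9 hpp.le

/-- `log 2 ≥ 0.6931471803`: `0.46 ≤ 0.66369375 log 2` -/
theorem four_rpow_le (p : ℝ) : (4 : ℝ) ^ (23 / 100 * p ^ 2) ≤ EE p := by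
  rw [Real.rpow_def_of_pos (by norm_num)]
  unfold EE sg
  apply Real.exp_le_exp.2
  have h1 : Real.log 4 = 2 * Real.log 2 := by
    rw [show (4 : ℝ) = 2 ^ 2 by norm_num, Real.log_pow]
    push_cast
    ring
  have h2 := Real.log_two_gt_d9
  rw [h1]
  have h3 : 0 ≤ p ^ 2 * Real.log 2 := by positivity
  have h4 : 0 ≤ p ^ 2 * Real.log 2 * (1699056 * 9 / (16 * 1440000) * Real.log 2 - 46 / 100) :=
    mul_nonneg h3 (by linarith)
  nlinarith

/-- `region`, `iter2`, `mean_lower1`, and `scale_exists`, `scale_bound` of `LB/Growth.lean` with `m = 1`,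
`e = 0.23 p^2`, `a = EE p` (compare `growth` there). -/
theorem growth1 (hp : 0 < p) (hp1 : p ≤ 3424 / 10000) (S : Sl B) : ∃ K : ℝ, 0 < K ∧ ∀ r, 0 < r → r < 1 →
    K * (1 - r) ^ (-(23 / 100 * p ^ 2)) ≤
      ∫ θ in (0 : ℝ)..2 * Real.pi, ‖deriv (fn B) (pt r θ)‖ ^ p := by
  obtain ⟨r₁, hρ0, hρ1, hreg⟩ := region S
  obtain ⟨c, hc, hit⟩ := iter2 hp hp1 S hreg
  have hpos4 : (0 : ℝ) < 4 ^ (1 + 1) := by positivity
  have h2 : r₁ ^ (1 / (4 ^ (1 + 1) : ℝ)) < 1 := Real.rpow_lt_one hρ0.le hρ1 (by positivity)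
  obtain ⟨b, hb, HB⟩ := mean_lower1 hp S h2
  have hD : 0 < (1 - r₁) / 4 ^ (1 + 1) := div_pos (by linarith) hpos4
  have hDe : 0 < ((1 - r₁) / 4 ^ (1 + 1)) ^ (-(23 / 100 * p ^ 2)) := Real.rpow_pos_of_pos hD _
  refine ⟨b * c / ((1 - r₁) / 4 ^ (1 + 1)) ^ (-(23 / 100 * p ^ 2)), by positivity, ?_⟩
  intro r hr0 hr1
  obtain ⟨n, hn1, hn2⟩ := scale_exists (m := 1) le_rfl hρ0 hr0 hr1
  have h40 : (0 : ℝ) < r ^ 4 := by positivity
  have h41 : r ^ 4 < 1 := pow_lt_one₀ hr0.le hr1 (by norm_num)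
  have e1 := hit n (r ^ 4) h40 h41 (by
    intro hn
    have h3 := hn1 hn
    rwa [one_mul] at h3)
  have hk : r ^ 4 ^ n ≤ r₁ ^ (1 / (4 ^ (1 + 1) : ℝ)) := by
    have h3 : (r ^ 4 ^ n) ^ 4 ^ (1 + 1) < r₁ := by
      rw [← pow_mul, ← pow_add]
      have e : n + (1 + 1) = 1 * (n + 1) + 1 := by ring
      rw [e]
      exact hn2
    have h4 : 0 ≤ r ^ 4 ^ n := by positivity
    have h5 : r ^ 4 ^ n = ((r ^ 4 ^ n) ^ 4 ^ (1 + 1)) ^ (1 / (4 ^ (1 + 1) : ℝ)) := by
      rw [← Real.rpow_natCast (r ^ 4 ^ n) (4 ^ (1 + 1)), ← Real.rpow_mul h4]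
      rw [Nat.cast_pow, Nat.cast_ofNat, mul_one_div_cancel hpos4.ne', Real.rpow_one]
    rw [h5]
    exact Real.rpow_le_rpow (by positivity) h3.le (by positivity)
  have e2 := HB n r hr0 hr1 hk
  have e3 := scale_bound (m := 1) (e := 23 / 100 * p ^ 2) (a := EE p) hρ1 hr0 hr1
    (by positivity) hn2 (by rw [Nat.cast_one, mul_one]; exact four_rpow_le p)
  calc b * c / ((1 - r₁) / 4 ^ (1 + 1)) ^ (-(23 / 100 * p ^ 2)) * (1 - r) ^ (-(23 / 100 * p ^ 2))
      ≤ b * c / ((1 - r₁) / 4 ^ (1 + 1)) ^ (-(23 / 100 * p ^ 2)) *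
        (((1 - r₁) / 4 ^ (1 + 1)) ^ (-(23 / 100 * p ^ 2)) * EE p ^ n) :=
        mul_le_mul_of_nonneg_left e3 (by positivity)
    _ = b * (c * EE p ^ n) := by
        field_simp
    _ ≤ b * ci (fun z => Real.exp (p * SS B n z)) (r ^ 4) :=
        mul_le_mul_of_nonneg_left e1 hb.le
    _ ≤ _ := e2

end Pool.Agent.Helper42.KU
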