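import Pool.Agent.Helper42.KU.Chk

/-!
# Project KU: bounds of the exponential function
-/

set_option autoImplicit false

namespace Pool.Agent.Helper42.KU

open Real

private theorem stp {f g : ℝ → ℝ} (h0 : f 0 = 0) (hd : ∀ y, HasDerivAt f (g y) y)
    (hg : ∀ y, 0 ≤ y → 0 ≤ g y) : ∀ y, 0 ≤ y → 0 ≤ f y := by
  intro y hy
  have hm : MonotoneOn f (Set.Ici 0) := by
    refine monotoneOn_of_deriv_nonneg (convex_Ici 0) ?_ ?_ ?_
    · exact fun x _ => (hd x).continuousAt.continuousWithinAt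
    · exact fun x _ => (hd x).differentiableAt.differentiableWithinAt
    · intro x hx
      rw [interior_Ici] at hx
      rw [(hd x).deriv]
      exact hg x (le_of_lt hx)
  have h := hm (Set.mem_Ici.2 le_rfl) (Set.mem_Ici.2 hy) hy
  rwa [h0] at h

private theorem g0 : ∀ y : ℝ, 0 ≤ y → 0 ≤ 1 - exp (-y) := by
  intro y hy
  have : exp (-y) ≤ 1 := exp_le_one_iff.2 (by linarith)
  linarith

private theorem hexp (y : ℝ) : HasDerivAt (fun y : ℝ => exp (-y)) (-exp (-y)) y := by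
  have h := (hasDerivAt_id y).neg.exp
  simpa using h

private theorem g1 : ∀ y : ℝ, 0 ≤ y → 0 ≤ exp (-y) - (1 - y) := by
  refine stp (g := fun y => 1 - exp (-y)) (by simp) (fun y => ?_) g0
  have h := (hexp y).sub ((hasDerivAt_const y (1 : ℝ)).sub (hasDerivAt_id y))
  refine h.congr_deriv ?_
  ring

private theorem pw (n : ℕ) (y : ℝ) : HasDerivAt (fun y : ℝ => y ^ (n + 1)) ((n + 1 : ℕ) * y ^ n) y := by
  simpa using hasDerivAt_pow (n + 1) y

private theorem g2 : ∀ y : ℝ, 0 ≤ y → 0 ≤ (1 - y + y ^ 2 / 2) - exp (-y) := by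
  refine stp (g := fun y => exp (-y) - (1 - y)) (by simp) (fun y => ?_) g1
  have h := (((hasDerivAt_const y (1 : ℝ)).sub (hasDerivAt_id y)).add ((pw 1 y).div_const 2)).sub
    (hexp y)
  refine h.congr_deriv ?_
  push_cast
  ring

private theorem g3 : ∀ y : ℝ, 0 ≤ y → 0 ≤ exp (-y) - (1 - y + y ^ 2 / 2 - y ^ 3 / 6) := by
  refine stp (g := fun y => (1 - y + y ^ 2 / 2) - exp (-y)) (by simp) (fun y => ?_) g2
  have h := (hexp y).sub ((((hasDerivAt_const y (1 : ℝ)).sub (hasDerivAt_id y)).add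
    ((pw 1 y).div_const 2)).sub ((pw 2 y).div_const 6))
  refine h.congr_deriv ?_
  push_cast
  ring

private theorem g4 : ∀ y : ℝ, 0 ≤ y → 0 ≤ (1 - y + y ^ 2 / 2 - y ^ 3 / 6 + y ^ 4 / 24) - exp (-y) := by
  refine stp (g := fun y => exp (-y) - (1 - y + y ^ 2 / 2 - y ^ 3 / 6)) (by simp) (fun y => ?_) g3
  have h := (((((hasDerivAt_const y (1 : ℝ)).sub (hasDerivAt_id y)).add
    ((pw 1 y).div_const 2)).sub ((pw 2 y).div_const 6)).add ((pw 3 y).div_const 24)).sub (hexp y)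
  refine h.congr_deriv ?_
  push_cast
  ring

private theorem g5 : ∀ y : ℝ, 0 ≤ y →
    0 ≤ exp (-y) - (1 - y + y ^ 2 / 2 - y ^ 3 / 6 + y ^ 4 / 24 - y ^ 5 / 120) := by
  refine stp (g := fun y => (1 - y + y ^ 2 / 2 - y ^ 3 / 6 + y ^ 4 / 24) - exp (-y)) (by simp)
    (fun y => ?_) g4
  have h := (hexp y).sub ((((((hasDerivAt_const y (1 : ℝ)).sub (hasDerivAt_id y)).add
    ((pw 1 y).div_const 2)).sub ((pw 2 y).div_const 6)).add ((pw 3 y).div_const 24)).sub
      ((pw 4 y).div_const 120))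
  refine h.congr_deriv ?_
  push_cast
  ring

private theorem g6 : ∀ y : ℝ, 0 ≤ y →
    0 ≤ (1 - y + y ^ 2 / 2 - y ^ 3 / 6 + y ^ 4 / 24 - y ^ 5 / 120 + y ^ 6 / 720) - exp (-y) := by
  refine stp (g := fun y => exp (-y) - (1 - y + y ^ 2 / 2 - y ^ 3 / 6 + y ^ 4 / 24 - y ^ 5 / 120))
    (by simp) (fun y => ?_) g5
  have h := (((((((hasDerivAt_const y (1 : ℝ)).sub (hasDerivAt_id y)).add
    ((pw 1 y).div_const 2)).sub ((pw 2 y).div_const 6)).add ((pw 3 y).div_const 24)).sub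
      ((pw 4 y).div_const 120)).add ((pw 5 y).div_const 720)).sub (hexp y)
  refine h.congr_deriv ?_
  push_cast
  ring

private theorem g7 : ∀ y : ℝ, 0 ≤ y → 0 ≤ exp (-y) -
    (1 - y + y ^ 2 / 2 - y ^ 3 / 6 + y ^ 4 / 24 - y ^ 5 / 120 + y ^ 6 / 720 - y ^ 7 / 5040) := by
  refine stp (g := fun y => (1 - y + y ^ 2 / 2 - y ^ 3 / 6 + y ^ 4 / 24 - y ^ 5 / 120 + y ^ 6 / 720) -
    exp (-y)) (by simp) (fun y => ?_) g6
  have h := (hexp y).sub ((((((((hasDerivAt_const y (1 : ℝ)).sub (hasDerivAt_id y)).add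
    ((pw 1 y).div_const 2)).sub ((pw 2 y).div_const 6)).add ((pw 3 y).div_const 24)).sub
      ((pw 4 y).div_const 120)).add ((pw 5 y).div_const 720)).sub ((pw 6 y).div_const 5040))
  refine h.congr_deriv ?_
  push_cast
  ring

/-- degree 3 -/
theorem t3_le (x : ℝ) : 1 + x + x ^ 2 / 2 + x ^ 3 / 6 ≤ exp x := by
  rcases le_total 0 x with h | h
  · have h1 := Real.sum_le_exp_of_nonneg h 4
    simp only [Finset.sum_range_succ, Finset.sum_range_zero, Nat.factorial] at h1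
    norm_num at h1
    linarith
  · have h1 := g3 (-x) (by linarith)
    rw [neg_neg] at h1
    nlinarith

/-- degree 7 -/
theorem t7_le (x : ℝ) : 1 + x + x ^ 2 / 2 + x ^ 3 / 6 + x ^ 4 / 24 + x ^ 5 / 120 + x ^ 6 / 720 +
    x ^ 7 / 5040 ≤ exp x := by
  rcases le_total 0 x with h | h
  · have h1 := Real.sum_le_exp_of_nonneg h 8
    simp only [Finset.sum_range_succ, Finset.sum_range_zero, Nat.factorial] at h1
    norm_num at h1
    linarith
  · have h1 := g7 (-x) (by linarith)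
    rw [neg_neg] at h1
    have e1 : (-x) ^ 2 = x ^ 2 := by ring
    have e2 : (-x) ^ 3 = -x ^ 3 := by ring
    have e3 : (-x) ^ 4 = x ^ 4 := by ring
    have e4 : (-x) ^ 5 = -x ^ 5 := by ring
    have e5 : (-x) ^ 6 = x ^ 6 := by ring
    have e6 : (-x) ^ 7 = -x ^ 7 := by ring
    rw [e1, e2, e3, e4, e5, e6] at h1
    linarith

/-- degree 6, negative arguments -/
theorem t6_ge {x : ℝ} (h : x ≤ 0) : exp x ≤
    1 + x + x ^ 2 / 2 + x ^ 3 / 6 + x ^ 4 / 24 + x ^ 5 / 120 + x ^ 6 / 720 := by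
  have h1 := g6 (-x) (by linarith)
  rw [neg_neg] at h1
  have e1 : (-x) ^ 2 = x ^ 2 := by ring
  have e2 : (-x) ^ 3 = -x ^ 3 := by ring
  have e3 : (-x) ^ 4 = x ^ 4 := by ring
  have e4 : (-x) ^ 5 = -x ^ 5 := by ring
  have e5 : (-x) ^ 6 = x ^ 6 := by ring
  rw [e1, e2, e3, e4, e5] at h1
  linarith

theorem ev_T7 (m : ℤ) (s : ℝ) : ev (T7 m) s ≤ 5040 * exp (m * s) := by
  have h := t7_le (m * s)
  simp only [T7, ev]
  push_cast
  nlinarith

theorem ev_T3 (m : ℤ) (s : ℝ) : ev (T3 m) s ≤ 6 * exp (m * s) := by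
  have h := t3_le (m * s)
  simp only [T3, ev]
  push_cast
  nlinarith

theorem ev_N6 {m : ℤ} (hm : m ≤ 0) {s : ℝ} (hs : 0 ≤ s) :
    1440 + 720 * exp (m * s) ≤ ev (N6 m) s := by
  have hm' : (m : ℝ) ≤ 0 := by exact_mod_cast hm
  have h := t6_ge (mul_nonpos_of_nonpos_of_nonneg hm' hs)
  simp only [N6, ev]
  push_cast
  nlinarith

theorem ev_E18 {s : ℝ} (h : 1699056 * s ^ 2 ≤ 1) : 18 * exp (1699056 * s ^ 2) ≤ ev E18 s := by
  have h1 := Real.exp_bound' (x := 1699056 * s ^ 2) (by positivity) h (n := 3) (by norm_num)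
  simp only [Finset.sum_range_succ, Finset.sum_range_zero, Nat.factorial] at h1
  norm_num at h1
  simp only [E18, ev]
  push_cast
  nlinarith

end Pool.Agent.Helper42.KU
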