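import Pool.Agent.Helper42.KU.Df
import Pool.Agent.Helper42.KU.Cell

/-!
# Project KU: soundness of the tree check
-/

set_option autoImplicit false

namespace Pool.Agent.Helper42.KU

open Real

/-! ## logarithms -/

theorem log_le_of_ll {m : ℤ} {Q : ℕ} (h : ll m Q = true) {q : ℝ} (hq : (Q : ℝ) / 2 ^ 20 ≤ q) :
    (m : ℝ) * Real.log 2 ≤ 1200 * Real.log q := by
  unfold ll at h
  rw [Bool.and_eq_true, Nat.ble_eq, Nat.ble_eq] at h
  obtain ⟨h1, h2⟩ := h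
  have hQ : (0 : ℝ) < Q := by exact_mod_cast h1
  have hl2 : 0 < Real.log 2 := Real.log_pos (by norm_num)
  have h3 : (2 : ℝ) ^ (m + 24000).toNat ≤ (Q : ℝ) ^ 1200 := by exact_mod_cast h2
  have h4 := Real.log_le_log (by positivity) h3
  rw [Real.log_pow, Real.log_pow] at h4
  have h5 : ((m + 24000 : ℤ) : ℝ) ≤ ((m + 24000).toNat : ℝ) := by
    exact_mod_cast Int.self_le_toNat (m + 24000)
  have h6 := mul_le_mul_of_nonneg_right h5 hl2.le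
  have h7 : Real.log ((Q : ℝ) / 2 ^ 20) ≤ Real.log q := Real.log_le_log (by positivity) hq
  rw [Real.log_div hQ.ne' (by positivity), Real.log_pow] at h7
  push_cast at h4 h6 h7
  linarith

theorem log_le_of_lh {m : ℤ} {Q : ℕ} (h : lh m Q = true) {q : ℝ} (hq : q ≤ (Q : ℝ) / 2 ^ 20)
    (h0 : 0 < q) : 1200 * Real.log q ≤ (m : ℝ) * Real.log 2 := by
  unfold lh at h
  rw [Bool.and_eq_true, Nat.ble_eq, decide_eq_true_eq] at h
  obtain ⟨h1, h2⟩ := h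
  have hQ : (0 : ℝ) < Q := by
    have : 0 < (Q : ℝ) / 2 ^ 20 := lt_of_lt_of_le h0 hq
    by_contra hc
    push Not at hc
    have : (Q : ℝ) / 2 ^ 20 ≤ 0 := div_nonpos_of_nonpos_of_nonneg hc (by positivity)
    linarith
  have h3 : (Q : ℝ) ^ 1200 ≤ (2 : ℝ) ^ (m + 24000).toNat := by exact_mod_cast h2
  have h4 := Real.log_le_log (by positivity) h3
  rw [Real.log_pow, Real.log_pow] at h4
  have h5 : ((m + 24000 : ℤ) : ℝ) = ((m + 24000).toNat : ℝ) := by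
    have : ((m + 24000).toNat : ℤ) = m + 24000 := Int.toNat_of_nonneg h1
    exact_mod_cast this.symm
  rw [← h5] at h4
  have h7 : Real.log q ≤ Real.log ((Q : ℝ) / 2 ^ 20) := Real.log_le_log h0 hq
  rw [Real.log_div hQ.ne' (by positivity), Real.log_pow] at h7
  push_cast at h4 h7
  linarith

variable {p : ℝ}

theorem exp_le_rpow (hp : 0 < p) {m : ℤ} {q : ℝ} (h0 : 0 < q)
    (h : (m : ℝ) * Real.log 2 ≤ 1200 * Real.log q) : exp (m * sg p) ≤ q ^ (3 * p / 4) := by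
  rw [Real.rpow_def_of_pos h0, exp_le_exp]
  unfold sg
  have : (m : ℝ) * Real.log 2 * (3 * p / 4) ≤ 1200 * Real.log q * (3 * p / 4) :=
    mul_le_mul_of_nonneg_right h (by positivity)
  linarith

theorem rpow_le_exp (hp : 0 < p) {m : ℤ} {q : ℝ} (h0 : 0 < q)
    (h : 1200 * Real.log q ≤ (m : ℝ) * Real.log 2) : q ^ (3 * p / 4) ≤ exp (m * sg p) := by
  rw [Real.rpow_def_of_pos h0, exp_le_exp]
  unfold sg
  have : 1200 * Real.log q * (3 * p / 4) ≤ (m : ℝ) * Real.log 2 * (3 * p / 4) :=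
    mul_le_mul_of_nonneg_right h (by positivity)
  linarith

theorem two_rpow (m : ℝ) (p : ℝ) : (2 : ℝ) ^ (m * (3 * p / 4)) = exp (1200 * m * sg p) := by
  rw [Real.rpow_def_of_pos (by norm_num)]
  congr 1
  unfold sg
  ring

/-! ## corner values -/

theorem ql_real {x c d Q : ℕ} (h : ql x c d Q = true) (hd : 0 < d) {X T : ℝ}
    (hX : (x : ℝ) / 2 ^ 16 ≤ X) (hT : T * d ≤ c) (hT0 : 0 ≤ T) :
    (Q : ℝ) / 2 ^ 20 ≤ 4 * X ^ 2 - 4 * T ^ 2 := by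
  unfold ql at h
  rw [Nat.ble_eq] at h
  have h1 : (2 : ℝ) ^ 10 * d ^ 2 * Q + 2 ^ 32 * c ^ 2 ≤ (x : ℝ) ^ 2 * d ^ 2 := by exact_mod_cast h
  have hd' : (0 : ℝ) < d := by exact_mod_cast hd
  have h2 : T ≤ c / d := by rwa [le_div_iff₀ hd']
  have h3 : T ^ 2 ≤ (c / d : ℝ) ^ 2 := pow_le_pow_left₀ hT0 h2 2
  have h4 : ((x : ℝ) / 2 ^ 16) ^ 2 ≤ X ^ 2 := pow_le_pow_left₀ (by positivity) hX 2
  have h5 : (Q : ℝ) / 2 ^ 20 ≤ 4 * ((x : ℝ) / 2 ^ 16) ^ 2 - 4 * (c / d : ℝ) ^ 2 := by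
    rw [div_pow, div_pow]
    have e : 4 * ((x : ℝ) ^ 2 / (2 ^ 16) ^ 2) - 4 * ((c : ℝ) ^ 2 / d ^ 2) =
        (x ^ 2 * d ^ 2 - 2 ^ 32 * c ^ 2) / (2 ^ 30 * d ^ 2) := by
      field_simp
      ring
    rw [e, le_div_iff₀ (by positivity)]
    have e2 : (Q : ℝ) / 2 ^ 20 * (2 ^ 30 * d ^ 2) = 2 ^ 10 * d ^ 2 * Q := by ring
    rw [e2]
    linarith
  linarith

theorem qh_real {x c d Q : ℕ} (h : qh x c d Q = true) (hd : 0 < d) {X T : ℝ}
    (hX : X ≤ (x : ℝ) / 2 ^ 16) (hX0 : 0 ≤ X) (hT : (c : ℝ) ≤ T * d) :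
    4 * X ^ 2 - 4 * T ^ 2 ≤ (Q : ℝ) / 2 ^ 20 := by
  unfold qh at h
  rw [Nat.ble_eq] at h
  have h1 : (x : ℝ) ^ 2 * d ^ 2 ≤ 2 ^ 10 * d ^ 2 * Q + 2 ^ 32 * c ^ 2 := by exact_mod_cast h
  have hd' : (0 : ℝ) < d := by exact_mod_cast hd
  have h2 : (c / d : ℝ) ≤ T := by rwa [div_le_iff₀ hd']
  have h3 : (c / d : ℝ) ^ 2 ≤ T ^ 2 := pow_le_pow_left₀ (by positivity) h2 2
  have h4 : X ^ 2 ≤ ((x : ℝ) / 2 ^ 16) ^ 2 := pow_le_pow_left₀ hX0 hX 2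
  have h5 : 4 * ((x : ℝ) / 2 ^ 16) ^ 2 - 4 * (c / d : ℝ) ^ 2 ≤ (Q : ℝ) / 2 ^ 20 := by
    rw [div_pow, div_pow]
    have e : 4 * ((x : ℝ) ^ 2 / (2 ^ 16) ^ 2) - 4 * ((c : ℝ) ^ 2 / d ^ 2) =
        (x ^ 2 * d ^ 2 - 2 ^ 32 * c ^ 2) / (2 ^ 30 * d ^ 2) := by
      field_simp
      ring
    rw [e, div_le_iff₀ (by positivity)]
    have e2 : (Q : ℝ) / 2 ^ 20 * (2 ^ 30 * d ^ 2) = 2 ^ 10 * d ^ 2 * Q := by ring
    rw [e2]
    linarith
  linarith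

theorem nl_real {x c d A : ℕ} (h : nl x c d A = true) (hd : 0 < d) {X T : ℝ}
    (hX : (x : ℝ) / 2 ^ 16 ≤ X) (hT : (c : ℝ) ≤ T * d) : (A : ℝ) / 2 ^ 20 ≤ 2 * X + 2 * T := by
  unfold nl at h
  rw [Nat.ble_eq] at h
  have h1 : (d : ℝ) * A ≤ 2 ^ 5 * (d * x) + 2 ^ 21 * c := by exact_mod_cast h
  have hd' : (0 : ℝ) < d := by exact_mod_cast hd
  have h2 : (c / d : ℝ) ≤ T := by rwa [div_le_iff₀ hd']
  have h5 : (A : ℝ) / 2 ^ 20 ≤ 2 * (x / 2 ^ 16) + 2 * (c / d) := by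
    have e : 2 * ((x : ℝ) / 2 ^ 16) + 2 * (c / d) = (2 ^ 5 * (d * x) + 2 ^ 21 * c) / (2 ^ 20 * d) := by
      field_simp
    rw [e, le_div_iff₀ (by positivity)]
    have e2 : (A : ℝ) / 2 ^ 20 * (2 ^ 20 * d) = d * A := by ring
    rw [e2]
    linarith
  linarith

theorem dn_pos (v : ℕ) : 0 < dn v := by
  unfold dn
  positivity

/-- the parametrisation of the circle -/
structure Pt (C S u : ℝ) : Prop where
  c : C * (1 + u ^ 2) = 1 - u ^ 2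
  s : S * (1 + u ^ 2) = 2 * u
  u0 : 0 ≤ u
  u1 : u ≤ 1

variable {C S u : ℝ}

theorem c_le (P : Pt C S u) {v : ℕ} (h : (v : ℝ) / 2 ^ 20 ≤ u) : C * dn v ≤ cn v := by
  have h1 : (v : ℝ) ≤ u * 2 ^ 20 := by rwa [div_le_iff₀ (by positivity)] at h
  have h2 : (2 : ℝ) ^ 40 - v ^ 2 ≤ cn v := by
    unfold cn
    rcases le_total (v ^ 2) (2 ^ 40) with h3 | h3
    · rw [Nat.cast_sub h3]
      push_cast
      linarith
    · have : ((2 ^ 40 : ℕ) : ℝ) ≤ ((v ^ 2 : ℕ) : ℝ) := by exact_mod_cast h3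
      push_cast at this
      have h4 : (0 : ℝ) ≤ ((2 ^ 40 - v ^ 2 : ℕ) : ℝ) := by positivity
      linarith
  refine le_trans ?_ h2
  have hv : (0 : ℝ) ≤ v := by positivity
  have h3 : (v : ℝ) ^ 2 ≤ u ^ 2 * 2 ^ 40 := by
    calc (v : ℝ) ^ 2 ≤ (u * 2 ^ 20) ^ 2 := pow_le_pow_left₀ hv h1 2
      _ = u ^ 2 * 2 ^ 40 := by ring
  have h4 : 0 < 1 + u ^ 2 := by positivity
  refine le_of_mul_le_mul_right ?_ h4
  have e : C * (dn v : ℝ) * (1 + u ^ 2) = (1 - u ^ 2) * dn v := by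
    rw [← P.c]; ring
  rw [e]
  unfold dn
  push_cast
  nlinarith

theorem le_c (P : Pt C S u) {v : ℕ} (h : u ≤ (v : ℝ) / 2 ^ 20) (hv : v ≤ 2 ^ 20) :
    (cn v : ℝ) ≤ C * dn v := by
  have h1 : u * 2 ^ 20 ≤ (v : ℝ) := by rwa [le_div_iff₀ (by positivity)] at h
  have h2 : (cn v : ℝ) = 2 ^ 40 - v ^ 2 := by
    unfold cn
    have h3 : v ^ 2 ≤ 2 ^ 40 := by
      calc v ^ 2 ≤ (2 ^ 20) ^ 2 := Nat.pow_le_pow_left hv 2
        _ = 2 ^ 40 := by norm_num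
    rw [Nat.cast_sub h3]
    push_cast
    ring
  rw [h2]
  have hu := P.u0
  have h3 : u ^ 2 * 2 ^ 40 ≤ (v : ℝ) ^ 2 := by
    calc u ^ 2 * 2 ^ 40 = (u * 2 ^ 20) ^ 2 := by ring
      _ ≤ (v : ℝ) ^ 2 := pow_le_pow_left₀ (by positivity) h1 2
  have h4 : 0 < 1 + u ^ 2 := by positivity
  refine le_of_mul_le_mul_right ?_ h4
  have e : C * (dn v : ℝ) * (1 + u ^ 2) = (1 - u ^ 2) * dn v := by
    rw [← P.c]; ring
  rw [e]
  unfold dn
  push_cast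
  nlinarith

theorem le_s (P : Pt C S u) {v : ℕ} (h : (v : ℝ) / 2 ^ 20 ≤ u) : (sn v : ℝ) ≤ S * dn v := by
  have h1 : (v : ℝ) ≤ u * 2 ^ 20 := by rwa [div_le_iff₀ (by positivity)] at h
  have h4 : 0 < 1 + u ^ 2 := by positivity
  refine le_of_mul_le_mul_right ?_ h4
  have e : S * (dn v : ℝ) * (1 + u ^ 2) = 2 * u * dn v := by
    rw [← P.s]; ring
  rw [e]
  unfold dn sn
  push_cast
  have hu := P.u0
  have hu1 := P.u1
  have hv : (0 : ℝ) ≤ v := by positivity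
  have h5 : 0 ≤ (u * 2 ^ 20 - v) * (2 ^ 20 - u * v) := by
    apply mul_nonneg (by linarith)
    have : u * v ≤ 1 * (u * 2 ^ 20) := mul_le_mul hu1 h1 hv (by norm_num)
    nlinarith
  nlinarith

theorem s_le (P : Pt C S u) {v : ℕ} (h : u ≤ (v : ℝ) / 2 ^ 20) (hv : v ≤ 2 ^ 20) :
    S * dn v ≤ sn v := by
  have h1 : u * 2 ^ 20 ≤ (v : ℝ) := by rwa [le_div_iff₀ (by positivity)] at h
  have h4 : 0 < 1 + u ^ 2 := by positivity
  refine le_of_mul_le_mul_right ?_ h4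
  have e : S * (dn v : ℝ) * (1 + u ^ 2) = 2 * u * dn v := by
    rw [← P.s]; ring
  rw [e]
  unfold dn sn
  push_cast
  have hu := P.u0
  have hu1 := P.u1
  have hv0 : (0 : ℝ) ≤ v := by positivity
  have hv' : (v : ℝ) ≤ 2 ^ 20 := by exact_mod_cast hv
  have h5 : 0 ≤ (v - u * 2 ^ 20) * (2 ^ 20 - u * v) := by
    apply mul_nonneg (by linarith)
    have : u * v ≤ 1 * 2 ^ 20 := mul_le_mul hu1 hv' hv0 (by norm_num)
    linarith
  nlinarith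

/-! ## the function in other variables -/

theorem sg_pos (hp : 0 < p) : 0 < sg p := by
  have := Real.log_pos (by norm_num : (1 : ℝ) < 2)
  unfold sg
  positivity

theorem sg_lt (hp : p ≤ 3424 / 10000) : sg p * 6740 < 1 := by
  have h1 := Real.log_two_lt_d9
  have h2 := Real.log_pos (by norm_num : (1 : ℝ) < 2)
  unfold sg
  nlinarith

theorem FF_eq (hp : 0 < p) {X C S : ℝ} (hN1 : 0 < 2 * X + 2 * C) (hN3 : 0 < 2 * X + 2 * S)
    (h1 : 0 ≤ 2 * X - 2 * C) (h3 : 0 ≤ 2 * X - 2 * S) :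
    FF p X C S = GG (sg p) (Real.sqrt (4 * X ^ 2 - 4 * C ^ 2)) (Real.sqrt (4 * X ^ 2 - 4 * S ^ 2))
      (((4 * X ^ 2 - 4 * C ^ 2) ^ 2 + (4 * X ^ 2 - 4 * S ^ 2) ^ 2) / 4 - 2)
      ((4 * X ^ 2 - 4 * C ^ 2) ^ (3 * p / 4)) ((4 * X ^ 2 - 4 * S ^ 2) ^ (3 * p / 4))
      ((2 * X + 2 * C) ^ (3 * p / 4)) ((2 * X + 2 * S) ^ (3 * p / 4)) := by
  have e1 : 4 * X ^ 2 - 4 * C ^ 2 = (2 * X + 2 * C) * (2 * X - 2 * C) := by ring
  have e3 : 4 * X ^ 2 - 4 * S ^ 2 = (2 * X + 2 * S) * (2 * X - 2 * S) := by ring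
  have q1 : 0 ≤ 4 * X ^ 2 - 4 * C ^ 2 := by rw [e1]; positivity
  have q3 : 0 ≤ 4 * X ^ 2 - 4 * S ^ 2 := by rw [e3]; positivity
  have f1 : (2 * X - 2 * C) ^ (3 * p / 4) =
      (4 * X ^ 2 - 4 * C ^ 2) ^ (3 * p / 4) / (2 * X + 2 * C) ^ (3 * p / 4) := by
    rw [e1, Real.mul_rpow hN1.le h1, mul_div_cancel_left₀ _ (Real.rpow_pos_of_pos hN1 _).ne']
  have f3 : (2 * X - 2 * S) ^ (3 * p / 4) =
      (4 * X ^ 2 - 4 * S ^ 2) ^ (3 * p / 4) / (2 * X + 2 * S) ^ (3 * p / 4) := by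
    rw [e3, Real.mul_rpow hN3.le h3, mul_div_cancel_left₀ _ (Real.rpow_pos_of_pos hN3 _).ne']
  have f5 : ((4 * X ^ 2 - 4 * C ^ 2) * (4 * X ^ 2 - 4 * S ^ 2) / 2) ^ (3 * p / 4) =
      exp (-(1200 * sg p)) * ((4 * X ^ 2 - 4 * C ^ 2) ^ (3 * p / 4) *
        (4 * X ^ 2 - 4 * S ^ 2) ^ (3 * p / 4)) := by
    rw [Real.div_rpow (by positivity) (by norm_num), Real.mul_rpow q1 q3, exp_neg]
    have h := two_rpow 1 p
    rw [one_mul, mul_one] at h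
    rw [h]
    field_simp
  unfold FF GG
  rw [f1, f3, f5]
  unfold b2 b1 kk EE
  have g1 : exp (-(5728 * sg p)) = exp (-(400 * sg p)) * exp (-(5328 * sg p)) := by
    rw [← exp_add]; ring_nf
  have g2 : exp (-(6528 * sg p)) = exp (-(5328 * sg p)) * exp (-(1200 * sg p)) := by
    rw [← exp_add]; ring_nf
  rw [g1, g2]
  have hE := exp_pos (1699056 * sg p ^ 2)
  field_simp
  ring

/-- the coefficient of `q2^(3p/4)` is nonnegative -/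
theorem K2_nonneg (hp : 0 < p) (hp1 : p ≤ 3424 / 10000) {q n : ℝ} (hq : 0 ≤ q) (hn : 0 < n)
    (h : q ^ 2 * n ≤ 32) :
    0 ≤ 1 / 4 * exp (-(400 * sg p)) / n ^ (3 * p / 4) + 1 / 4 * exp (-(5728 * sg p)) -
      1 / 2 * exp (1699056 * sg p ^ 2) * exp (-(6528 * sg p)) * q ^ (3 * p / 4) := by
  have hs := sg_pos hp
  have hs1 := sg_lt hp1
  set s := sg p with hsd
  set ν := n ^ (3 * p / 4) with hν
  set σ := q ^ (3 * p / 4) with hσ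
  have hν0 : 0 < ν := Real.rpow_pos_of_pos hn _
  have hσ0 : 0 ≤ σ := Real.rpow_nonneg hq _
  have ha : (0 : ℝ) ≤ 3 * p / 4 := by positivity
  have h1 : σ ^ 2 * ν ≤ exp (6000 * s) := by
    have e : σ ^ 2 * ν = (q ^ 2 * n) ^ (3 * p / 4) := by
      rw [Real.mul_rpow (by positivity) hn.le, sq q, Real.mul_rpow hq hq, ← sq]
    have e2 : (32 : ℝ) ^ (3 * p / 4) = exp (6000 * s) := by
      have h := two_rpow 5 p
      rw [Real.rpow_mul (by norm_num)] at h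
      norm_num at h
      rw [h]
    rw [e, ← e2]
    exact Real.rpow_le_rpow (by positivity) h ha
  set x : ℝ := exp (-(400 * s)) / ν with hx
  set y : ℝ := exp (-(5728 * s)) with hy
  set z : ℝ := exp (1699056 * s ^ 2) * exp (-(6528 * s)) * σ with hz
  have hx0 : 0 < x := by positivity
  have hy0 : 0 < y := exp_pos _
  have hz0 : 0 ≤ z := by positivity
  have h2 : z ^ 2 ≤ x * y := by
    rw [hx, hy, hz, div_mul_eq_mul_div, le_div_iff₀ hν0]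
    have e1 : (exp (1699056 * s ^ 2) * exp (-(6528 * s)) * σ) ^ 2 * ν =
        exp (3398112 * s ^ 2 - 13056 * s) * (σ ^ 2 * ν) := by
      have : exp (3398112 * s ^ 2 - 13056 * s) =
          (exp (1699056 * s ^ 2) * exp (-(6528 * s))) ^ 2 := by
        rw [← exp_add, ← exp_nat_mul]
        congr 1
        push_cast
        ring
      rw [this]
      ring
    rw [e1]
    calc exp (3398112 * s ^ 2 - 13056 * s) * (σ ^ 2 * ν)
        ≤ exp (3398112 * s ^ 2 - 13056 * s) * exp (6000 * s) :=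
          mul_le_mul_of_nonneg_left h1 (exp_pos _).le
      _ = exp (3398112 * s ^ 2 - 7056 * s) := by rw [← exp_add]; ring_nf
      _ ≤ exp (-(6128 * s)) := by
          apply exp_le_exp.2
          nlinarith
      _ = exp (-(400 * s)) * exp (-(5728 * s)) := by rw [← exp_add]; ring_nf
  have h3 : 2 * z ≤ x + y := by
    by_contra hc
    push Not at hc
    nlinarith [sq_nonneg (x - y)]
  have e : 1 / 4 * exp (-(400 * s)) / ν + 1 / 4 * y -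
      1 / 2 * exp (1699056 * s ^ 2) * exp (-(6528 * s)) * σ = 1 / 4 * (x + y - 2 * z) := by
    rw [hx, hz]
    ring
  rw [e]
  linarith

/-- soundness of the tree check -/
theorem tc_sound (hp : 0 < p) (hp1 : p ≤ 3424 / 10000) (t : Tr) {x0 x1 v0 v1 : ℕ}
    (h : tc t x0 x1 v0 v1 = true) {X : ℝ} (P : Pt C S u) (hCS : S ≤ C) (hX1 : 1 ≤ X)
    (hc : C ^ 2 + S ^ 2 = 1)
    (hR : (4 * X ^ 2 - 4 * C ^ 2) ^ 2 + (4 * X ^ 2 - 4 * S ^ 2) ^ 2 ≤ 401 / 25)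
    (hx0 : (x0 : ℝ) / 2 ^ 16 ≤ X) (hx1 : X ≤ (x1 : ℝ) / 2 ^ 16) (hv0 : (v0 : ℝ) / 2 ^ 20 ≤ u)
    (hv1 : u ≤ (v1 : ℝ) / 2 ^ 20) : 0 ≤ FF p X C S := by
  have hu := P.u0
  have hS0 : 0 ≤ S := by
    have h1 := P.s
    have h2 : 0 < 1 + u ^ 2 := by positivity
    by_contra hc
    push Not at hc
    nlinarith
  have hC0 : 0 ≤ C := hS0.trans hCS
  have hC1 : C ≤ 1 := by nlinarith
  have hS1 : S ≤ 1 := by nlinarith
  have hX0 : 0 ≤ X := by linarith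
  have hN1 : 0 < 2 * X + 2 * C := by linarith
  have hN3 : 0 < 2 * X + 2 * S := by linarith
  have q1 : 0 ≤ 4 * X ^ 2 - 4 * C ^ 2 := by nlinarith
  have q2 : 0 < 4 * X ^ 2 - 4 * S ^ 2 := by nlinarith
  induction t generalizing x0 x1 v0 v1 with
  | ot Q1 Q2 =>
    exfalso
    simp only [tc, Bool.and_eq_true, Nat.ble_eq] at h
    obtain ⟨⟨⟨k0, k1⟩, k2⟩, k3⟩ := h
    have l1 := ql_real k1 (dn_pos v0) hx0 (c_le P hv0) hC0
    have l2 := ql_real k2 (dn_pos v1) hx0 (s_le P hv1 k0) hS0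
    have m1 : ((Q1 : ℝ) / 2 ^ 20) ^ 2 ≤ (4 * X ^ 2 - 4 * C ^ 2) ^ 2 :=
      pow_le_pow_left₀ (by positivity) l1 2
    have m2 : ((Q2 : ℝ) / 2 ^ 20) ^ 2 ≤ (4 * X ^ 2 - 4 * S ^ 2) ^ 2 :=
      pow_le_pow_left₀ (by positivity) l2 2
    have k3' : (401 * 2 ^ 40 + 1 : ℝ) ≤ 25 * ((Q1 : ℝ) ^ 2 + Q2 ^ 2) := by exact_mod_cast k3
    rw [div_pow] at m1 m2
    have m3 : ((Q1 : ℝ) ^ 2 + Q2 ^ 2) / 2 ^ 40 ≤ 401 / 25 := by
      have e : ((Q1 : ℝ) ^ 2 + Q2 ^ 2) / 2 ^ 40 = Q1 ^ 2 / (2 ^ 20) ^ 2 + Q2 ^ 2 / (2 ^ 20) ^ 2 := by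
        ring
      rw [e]
      linarith
    rw [div_le_iff₀ (by positivity)] at m3
    linarith
  | lf Q1 Q1' Q2 Q2' A1 A3 z yl yh y2 n1 n3 r1 r2 Y =>
    simp only [tc, Bool.and_eq_true, Nat.ble_eq, Bool.or_eq_true] at h
    obtain ⟨⟨⟨⟨⟨⟨⟨⟨⟨⟨⟨⟨⟨⟨⟨k0, k1⟩, k2⟩, k3⟩, k4⟩, k5⟩, k6⟩, k7⟩, k8⟩, k9⟩, k10⟩, k11⟩, k12⟩, k13⟩,
      k14⟩, k15⟩ := h
    have l1 := ql_real k1 (dn_pos v0) hx0 (c_le P hv0) hC0
    have l1' := qh_real k2 (dn_pos v1) hx1 hX0 (le_c P hv1 k0)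
    have l2 := ql_real k3 (dn_pos v1) hx0 (s_le P hv1 k0) hS0
    have l2' := qh_real k4 (dn_pos v0) hx1 hX0 (le_s P hv0)
    have l3 := nl_real k5 (dn_pos v1) hx0 (le_c P hv1 k0)
    have l4 := nl_real k6 (dn_pos v0) hx0 (le_s P hv0)
    have hs := sg_pos hp
    have hs1 := sg_lt hp1
    rw [FF_eq hp hN1 hN3 (by linarith) (by linarith)]
    have hr : ∀ (r Q : ℕ) (q : ℝ), r ^ 2 ≤ Q → (Q : ℝ) / 2 ^ 20 ≤ q →
        ((r : ℤ) : ℝ) / 1024 ≤ Real.sqrt q := by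
      intro r Q q h1 h2
      apply Real.le_sqrt_of_sq_le
      have h3 : ((r : ℝ)) ^ 2 ≤ Q := by exact_mod_cast h1
      rw [Int.cast_natCast, div_pow]
      refine le_trans ?_ h2
      rw [div_le_div_iff₀ (by positivity) (by positivity)]
      nlinarith
    refine cell3_sound k15 (by positivity) (by positivity) hs hs1 (Real.rpow_nonneg q1 _) ?_ ?_ ?_
      ?_ ?_ (hr r1 Q1 _ k12 l1) (hr r2 Q2 _ k13 l2) ?_ ?_
    · intro hz
      rw [hz] at k7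
      simp only [Bool.false_eq_true, false_or] at k7
      have hQ : (0 : ℝ) < Q1 := by
        unfold ll at k7
        rw [Bool.and_eq_true, Nat.ble_eq, Nat.ble_eq] at k7
        exact_mod_cast k7.1
      exact exp_le_rpow hp (lt_of_lt_of_le (by positivity) l1) (log_le_of_ll k7 l1)
    · rcases q1.eq_or_lt with h0 | h0
      · rw [← h0, Real.zero_rpow (by positivity)]
        positivity
      · exact rpow_le_exp hp h0 (log_le_of_lh k8 l1' h0)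
    · exact exp_le_rpow hp q2 (log_le_of_ll k9 l2)
    · exact exp_le_rpow hp hN1 (log_le_of_ll k10 l3)
    · exact exp_le_rpow hp hN3 (log_le_of_ll k11 l4)
    · rcases k14 with k14 | k14
      · have h1 : (2059 : ℝ) ≤ (Y : ℝ) := by exact_mod_cast k14
        rw [Int.cast_natCast]
        have h2 : (2059 : ℝ) / 1024 ≤ (Y : ℝ) / 1024 := by
          apply div_le_div_of_nonneg_right h1 (by norm_num)
        norm_num at h2 hR ⊢
        linarith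
      · have h1 : (Q1' : ℝ) ^ 2 + Q2' ^ 2 ≤ 2 ^ 32 * Y + 2 ^ 43 := by exact_mod_cast k14
        rw [Int.cast_natCast]
        have m1 : (4 * X ^ 2 - 4 * C ^ 2) ^ 2 ≤ ((Q1' : ℝ) / 2 ^ 20) ^ 2 :=
          pow_le_pow_left₀ q1 l1' 2
        have m2 : (4 * X ^ 2 - 4 * S ^ 2) ^ 2 ≤ ((Q2' : ℝ) / 2 ^ 20) ^ 2 :=
          pow_le_pow_left₀ q2.le l2' 2
        have m3 : ((Q1' : ℝ) / 2 ^ 20) ^ 2 + ((Q2' : ℝ) / 2 ^ 20) ^ 2 ≤ (Y : ℝ) / 256 + 8 := by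
          have e : ((Q1' : ℝ) / 2 ^ 20) ^ 2 + ((Q2' : ℝ) / 2 ^ 20) ^ 2 =
              ((Q1' : ℝ) ^ 2 + Q2' ^ 2) / 2 ^ 40 := by ring
          rw [e, div_le_iff₀ (by positivity)]
          refine h1.trans (le_of_eq ?_)
          ring
        linarith
    · refine K2_nonneg hp hp1 q1 hN3 ?_
      have m1 : (4 * X ^ 2 - 4 * C ^ 2) ^ 2 ≤ 401 / 50 := by
        have : 4 * X ^ 2 - 4 * C ^ 2 ≤ 4 * X ^ 2 - 4 * S ^ 2 := by nlinarith
        have := pow_le_pow_left₀ q1 this 2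
        linarith
      have m2 : X ≤ 11 / 10 := by
        have n1 : (8 * X ^ 2 - 4) ^ 2 ≤ 802 / 25 := by
          have e : 8 * X ^ 2 - 4 = (4 * X ^ 2 - 4 * C ^ 2) + (4 * X ^ 2 - 4 * S ^ 2) := by
            linear_combination (4 : ℝ) * hc
          rw [e]
          nlinarith [sq_nonneg ((4 * X ^ 2 - 4 * C ^ 2) - (4 * X ^ 2 - 4 * S ^ 2))]
        by_contra hc'
        push Not at hc'
        have n2 : (121 / 100 : ℝ) < X ^ 2 := by nlinarith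
        have n3 : (568 / 100 : ℝ) < 8 * X ^ 2 - 4 := by linarith
        nlinarith
      have m3 : S ^ 2 ≤ 1 / 2 := by nlinarith
      have m4 : S ≤ 71 / 100 := by nlinarith
      calc (4 * X ^ 2 - 4 * C ^ 2) ^ 2 * (2 * X + 2 * S) ≤ 401 / 50 * (2 * (11 / 10) + 2 * (71 / 100)) :=
            mul_le_mul m1 (by linarith) hN3.le (by norm_num)
        _ ≤ 32 := by norm_num
  | sx m l r ihl ihr =>
    simp only [tc, Bool.and_eq_true] at h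
    rcases le_total X ((m : ℝ) / 2 ^ 16) with hm | hm
    · exact ihl h.1 hx0 hm hv0 hv1
    · exact ihr h.2 hm hx1 hv0 hv1
  | su m l r ihl ihr =>
    simp only [tc, Bool.and_eq_true] at h
    rcases le_total u ((m : ℝ) / 2 ^ 20) with hm | hm
    · exact ihl h.1 hx0 hx1 hv0 hm
    · exact ihr h.2 hx0 hx1 hm hv1

end Pool.Agent.Helper42.KU
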